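import Pool.Agent.H531.CP.Win

set_option autoImplicit false

/-!
# Concentration of the number of survivors of a window
-/

open Finset MeasureTheory ProbabilityTheory Filter Topology

namespace Pool.Agent.H531.CP

open Pool.Agent.T2H31.HV Pool.Agent.H531.SI Pool.Agent.H531.MS
open Pool.Agent.T2H32.BF hiding PI

/-- `k ^ 20` -/
def Yk (k : ℕ) : ℕ := k ^ 20

theorem log_small (c : ℝ) (hc : 0 < c) : ∀ᶠ k : ℕ in atTop, Real.log k ≤ c * k := by
  have h1 := Real.isLittleO_log_id_atTop.bound hc
  have h2 := tendsto_natCast_atTop_atTop (R := ℝ) |>.eventually h1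
  filter_upwards [h2] with k hk
  simp only [id, Real.norm_eq_abs] at hk
  have h3 : |(k : ℝ)| = k := abs_of_nonneg (Nat.cast_nonneg k)
  rw [h3] at hk
  exact (le_abs_self _).trans hk

/-- the windows have many elements -/
theorem y_large (c0 B : ℝ) (hc : 0 < c0) (hB : 0 < B) : ∀ᶠ k : ℕ in atTop, ∀ w y : ℕ, w ≤ k →
    c0 * k ^ 2 * V w ≤ y → B * k ≤ y := by
  filter_upwards [log_small (c0 / (2 * B)) (by positivity), V_ge_log, eventually_ge_atTop 2] with k h1 h2 h3
  intro w y hwk hy
  have hk : (2 : ℝ) ≤ k := by exact_mod_cast h3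
  have hl : 0 < Real.log k := Real.log_pos (by linarith)
  have hV : V k ≤ V w := by
    rw [V_eq, V_eq]
    refine prod_anti (fun q hq => ((mem_PN _ _).1 hq).2) fun q hq => ?_
    rw [mem_PN] at hq ⊢
    exact ⟨by omega, hq.2⟩
  refine le_trans ?_ hy
  have h4 : c0 * k ^ 2 * (1 / (2 * Real.log k)) ≤ c0 * k ^ 2 * V w := by
    apply mul_le_mul_of_nonneg_left (h2.trans hV) (by positivity)
  refine le_trans ?_ h4
  rw [mul_one_div, le_div_iff₀ (by positivity)]
  have h5 : Real.log k * (2 * B) ≤ c0 * k := by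
    have := mul_le_mul_of_nonneg_right h1 (show 0 ≤ 2 * B by positivity)
    have e : c0 / (2 * B) * k * (2 * B) = c0 * k := by field_simp
    linarith
  nlinarith

section prob

variable {Ω : Type} [MeasurableSpace Ω] {P : Measure Ω} {a : ℕ → Ω → ℕ}

/-- **Concentration.** -/
theorem conc_win (h : Model P a) (η κ c0 : ℝ) (hη : 0 < η) (hκ : 0 < κ) (hc : 0 < c0) :
    ∀ᶠ k : ℕ in atTop, ∀ w y u : ℕ, κ * k ≤ w → w ≤ k → c0 * k ^ 2 * V w ≤ y →
      P.real {ω | η * (y * (V (Yk k) / V w)) ≤
        |((Sw (Wd u (primorial w) y) (PI w (Yk k)) fun q => a q ω).card : ℝ) - y * (V (Yk k) / V w)|} ≤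
        2 * Real.exp (-(3 * k)) := by
  set C : ℝ := 320 / (η * κ) + 1 with hC
  have hC0 : 0 < C := by positivity
  have hCe := Real.exp_pos C
  set η' : ℝ := κ * η ^ 2 / (2 * 16 * 6400 * Real.exp C) with hη'
  have hη'0 : 0 < η' := by positivity
  obtain ⟨w0, hw02, hw0⟩ := sum_sq η' hη'0
  obtain ⟨u0, hu02, hu0⟩ := rho_lower
  set B1 : ℝ := 320 / η with hB1
  set B2 : ℝ := 2 * 16 * 6400 * 5 * Real.exp C / η ^ 2 with hB2
  filter_upwards [y_large c0 B1 hc (by positivity), y_large c0 B2 hc (by positivity),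
    (tendsto_natCast_atTop_atTop (R := ℝ)).eventually_ge_atTop ((max (w0 : ℝ) (max u0 (1 + C * Real.exp C))) / κ),
    (tendsto_natCast_atTop_atTop (R := ℝ)).eventually_ge_atTop (1 / κ ^ 2), eventually_ge_atTop 2]
    with k h1 h2 h3 h4 h5
  intro w y u hkw hwk hy
  have hy1 := h1 w y hwk hy
  have hy2 := h2 w y hwk hy
  have hk : (2 : ℝ) ≤ k := by exact_mod_cast h5
  have hk0 : (0 : ℝ) < k := by linarith
  have hw1 : max (w0 : ℝ) (max u0 (1 + C * Real.exp C)) ≤ w := by
    rw [div_le_iff₀ hκ] at h3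
    linarith
  have hww0 : w0 ≤ w := by exact_mod_cast (le_max_left _ _).trans hw1
  have hwu0 : u0 ≤ w := by exact_mod_cast (le_max_left _ _).trans ((le_max_right _ _).trans hw1)
  have hwC : 1 + C * Real.exp C ≤ w := (le_max_right _ _).trans ((le_max_right _ _).trans hw1)
  have hw2 : 2 ≤ w := hw02.trans hww0
  have hw0' : (0 : ℝ) < w := by exact_mod_cast (by omega : 0 < w)
  have hkw2 : k ≤ w ^ 2 := by
    have h6 : (k : ℝ) ≤ (w : ℝ) ^ 2 := by
      have h7 : (κ * k) ^ 2 ≤ (w : ℝ) ^ 2 := by gcongr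
      have h8 : (k : ℝ) ≤ (κ * k) ^ 2 := by
        have h9 : 1 ≤ k * κ ^ 2 := by
          rw [div_le_iff₀ (by positivity)] at h4
          exact h4
        nlinarith
      linarith
    exact_mod_cast h6
  have hρ := hu0 w k hwu0 hwk hkw2
  have hwY : w ≤ Yk k := hwk.trans (Nat.le_self_pow (by norm_num) k)
  have hVw := V_pos w
  have hVY := V_pos (Yk k)
  set ρ := V (Yk k) / V w with hρd
  have hρ80 : 1 / 80 ≤ ρ := by
    rw [hρd, le_div_iff₀ hVw]
    exact hρ
  have hρ0 : 0 < ρ := by linarith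
  have hy0 : (0 : ℝ) < y := lt_of_lt_of_le (by positivity) hy1
  have hL : ∀ p ∈ PI w (Yk k), p.Prime := fun p hp => (mem_PI.1 hp).2
  have hprod : ∏ p ∈ PI w (Yk k), (1 - 1 / (p : ℝ)) = ρ := (V_ratio w (Yk k) hwY).symm
  set l : ℝ := 4 * k / (η * ρ * y) with hl
  have hl0 : 0 < l := by positivity
  have hqpos : 0 < primorial w := primorial_pos w
  have key := conc h (Wd u (primorial w) y) (PI w (Yk k)) (fun p => (y : ℝ) / p + 1) hL
    (fun p hp => by positivity) (fun p hp r => by
      have hpp := hL p hp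
      have h6 := Wd_class u (primorial w) y p r hqpos hpp.pos (coprime_primorial hpp (mem_PI.1 hp).1.1)
      have h7 : (((Wd u (primorial w) y).filter fun t => t % p = r).card : ℝ) ≤ ((y / p + 1 : ℕ) : ℝ) := by
        exact_mod_cast h6
      push_cast at h7
      have h8 : ((y / p : ℕ) : ℝ) ≤ y / p := Nat.cast_div_le
      linarith) C hC0.le (fun p hp => by
      have : (w : ℝ) ≤ p := by exact_mod_cast (mem_PI.1 hp).1.1.le
      linarith) l hl0.le (fun p hp => by
      have hpw : (w : ℝ) ≤ p := by exact_mod_cast (mem_PI.1 hp).1.1.le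
      have e : l * (y / w + 1) = 4 * k / (η * ρ * w) + 4 * k / (η * ρ * y) := by
        rw [hl]
        field_simp
      have h6 : l * (y / p + 1) ≤ l * (y / w + 1) := by gcongr
      have h7 : 4 * k / (η * ρ * w) ≤ 320 / (η * κ) := by
        rw [div_le_div_iff₀ (by positivity) (by positivity)]
        have h8 : κ * k * (1 / 80) ≤ w * ρ := mul_le_mul hkw hρ80 (by norm_num) hw0'.le
        have := mul_le_mul_of_nonneg_left h8 (show 0 ≤ 320 * η by positivity)
        nlinarith
      have h8 : 4 * k / (η * ρ * y) ≤ 1 := by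
        rw [div_le_one (by positivity)]
        have h9 : 320 / η * k * (1 / 80) ≤ y * ρ := mul_le_mul hy1 hρ80 (by norm_num) hy0.le
        have h10 := mul_le_mul_of_nonneg_left h9 hη.le
        have e2 : η * (320 / η * k * (1 / 80)) = 4 * k := by
          field_simp
          norm_num
        rw [e2] at h10
        linarith
      rw [hC]
      linarith) (η * (y * ρ))
  rw [hprod, Wd_card _ _ _ hqpos] at key
  refine key.trans ?_
  -- the exponent
  have hsum : ∑ p ∈ PI w (Yk k), ((y : ℝ) / p + 1) / p ≤ y * (η' / w) + 5 := by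
    have e : ∀ p ∈ PI w (Yk k), ((y : ℝ) / p + 1) / p = y * (1 / (p : ℝ) ^ 2) + 1 / p := by
      intro p hp
      have : (p : ℝ) ≠ 0 := by exact_mod_cast (hL p hp).ne_zero
      field_simp
    rw [sum_congr rfl e, sum_add_distrib, ← mul_sum]
    have h6 := hw0 w (Yk k) hww0
    have h7 : ∑ p ∈ PI w (Yk k), 1 / (p : ℝ) ≤ Real.log (V w / V (Yk k)) := recip_le w (Yk k) hwY
    have h8 : Real.log (V w / V (Yk k)) ≤ 5 := by
      have h9 : V w / V (Yk k) ≤ 80 := by
        rw [div_le_iff₀ hVY]
        have : 1 / 80 * V w ≤ V (Yk k) := hρ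
        linarith
      calc Real.log (V w / V (Yk k)) ≤ Real.log (Real.exp 5) := by
            apply Real.log_le_log (by positivity)
            refine h9.trans ?_
            have h10 : (2.7182818283 : ℝ) ^ 5 ≤ Real.exp 1 ^ 5 := by
              gcongr
              exact Real.exp_one_gt_d9.le
            have h11 : Real.exp 1 ^ 5 = Real.exp 5 := by
              rw [← Real.exp_nat_mul]
              norm_num
            rw [h11] at h10
            refine le_trans ?_ h10
            norm_num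
        _ = 5 := Real.log_exp 5
    have h9 := mul_le_mul_of_nonneg_left h6 hy0.le
    linarith
  have hS0 : 0 ≤ ∑ p ∈ PI w (Yk k), ((y : ℝ) / p + 1) / p := sum_nonneg fun p _ => by positivity
  have hv : (y : ℝ) * (l ^ 2 * Real.exp C * ∑ p ∈ PI w (Yk k), ((y : ℝ) / p + 1) / p) ≤ k := by
    calc (y : ℝ) * (l ^ 2 * Real.exp C * ∑ p ∈ PI w (Yk k), ((y : ℝ) / p + 1) / p)
        ≤ y * (l ^ 2 * Real.exp C * (y * (η' / w) + 5)) := by gcongr
      _ = 16 * Real.exp C / (η ^ 2 * ρ ^ 2) * (k ^ 2 * (η' / w)) + 16 * Real.exp C / (η ^ 2 * ρ ^ 2) * (5 * k ^ 2 / y) := by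
          rw [hl]
          field_simp
          ring
      _ ≤ 16 * Real.exp C * 6400 / η ^ 2 * (k ^ 2 * (η' / w)) + 16 * Real.exp C * 6400 / η ^ 2 * (5 * k ^ 2 / y) := by
          have h6 : 16 * Real.exp C / (η ^ 2 * ρ ^ 2) ≤ 16 * Real.exp C * 6400 / η ^ 2 := by
            rw [div_le_div_iff₀ (by positivity) (by positivity)]
            have h7 : (1 : ℝ) / 6400 ≤ ρ ^ 2 := by nlinarith
            have h8 : 1 ≤ 6400 * ρ ^ 2 := by linarith
            have h9 := mul_le_mul_of_nonneg_left h8 (show 0 ≤ 16 * Real.exp C * η ^ 2 by positivity)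
            nlinarith
          gcongr
      _ ≤ (k : ℝ) / 2 + (k : ℝ) / 2 := by
          apply add_le_add
          · have h6 : (k : ℝ) ^ 2 * (η' / w) ≤ k * (η' / κ) := by
              have h7 : η' / w ≤ η' / (κ * k) := by gcongr
              calc (k : ℝ) ^ 2 * (η' / w) ≤ k ^ 2 * (η' / (κ * k)) := by gcongr
                _ = k * (η' / κ) := by field_simp
            calc 16 * Real.exp C * 6400 / η ^ 2 * (k ^ 2 * (η' / w))
                ≤ 16 * Real.exp C * 6400 / η ^ 2 * (k * (η' / κ)) := by gcongr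
              _ = (k : ℝ) / 2 := by
                  rw [hη']
                  field_simp
          · have h6 : 5 * (k : ℝ) ^ 2 / y ≤ 5 * k ^ 2 / (B2 * k) := by gcongr
            calc 16 * Real.exp C * 6400 / η ^ 2 * (5 * k ^ 2 / y)
                ≤ 16 * Real.exp C * 6400 / η ^ 2 * (5 * k ^ 2 / (B2 * k)) := by gcongr
              _ = (k : ℝ) / 2 := by
                  rw [hB2]
                  field_simp
                  try norm_num
      _ = k := by ring
  have hlt : l * (η * (y * ρ)) = 4 * k := by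
    rw [hl]
    field_simp
  rw [hlt]
  gcongr 2 * Real.exp ?_
  linarith

end prob

end Pool.Agent.H531.CP
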