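import Pool.Agent.H531.CP.Scale2

set_option autoImplicit false

/-!
# From windows to gaps between consecutive elements of a progression
-/

open Finset MeasureTheory ProbabilityTheory Filter Topology

namespace Pool.Agent.H531.CP

open Pool.Agent.T2H31.HV Pool.Agent.H531.SI Pool.Agent.H531.MS
open Pool.Agent.T2H32.BF hiding PI

/-- the gaps between consecutive elements of the intersections of `S ∩ [0, X]` with the classes modulo `q` -/
def Gaps (S : Set ℕ) (q X : ℕ) : Set ℕ :=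
  {g | ∃ n n' : ℕ, n ∈ S ∧ n' ∈ S ∧ n < n' ∧ n' ≤ X ∧ n ≡ n' [MOD q] ∧
    (∀ m, n < m → m < n' → m ≡ n [MOD q] → m ∉ S) ∧ g = n' - n}

/-- the largest gap -/
noncomputable def LG (S : Set ℕ) (q X : ℕ) : ℕ := sSup (Gaps S q X)

theorem Gaps_bdd (S : Set ℕ) (q X : ℕ) : BddAbove (Gaps S q X) := by
  refine ⟨X, ?_⟩
  rintro g ⟨n, n', -, -, -, h, -, -, rfl⟩
  omega

theorem Gaps_mono (S : Set ℕ) (q : ℕ) {X X' : ℕ} (h : X ≤ X') : Gaps S q X ⊆ Gaps S q X' := by
  rintro g ⟨n, n', h1, h2, h3, h4, h5, h6, rfl⟩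
  exact ⟨n, n', h1, h2, h3, h4.trans h, h5, h6, rfl⟩

theorem le_LG {S : Set ℕ} {q X g : ℕ} (h : g ∈ Gaps S q X) : g ≤ LG S q X := le_csSup (Gaps_bdd S q X) h

theorem LG_mono (S : Set ℕ) (q : ℕ) {X X' : ℕ} (h : X ≤ X') : LG S q X ≤ LG S q X' := by
  unfold LG
  rcases Set.eq_empty_or_nonempty (Gaps S q X) with h0 | h0
  · rw [h0]
    simp
  · exact csSup_le_csSup (Gaps_bdd S q X') h0 (Gaps_mono S q h)

theorem LG_le {S : Set ℕ} {q X B : ℕ} (h : ∀ g ∈ Gaps S q X, g ≤ B) : LG S q X ≤ B := by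
  unfold LG
  rcases Set.eq_empty_or_nonempty (Gaps S q X) with h0 | h0
  · rw [h0]
    simp
  · exact csSup_le h0 h

/-- the totient of the primorial -/
theorem totient_primorial (w : ℕ) : (Nat.totient (primorial w) : ℝ) = primorial w * V w := by
  have h1 := Nat.totient_eq_mul_prod_factors (primorial w)
  have h2 : ((Nat.totient (primorial w) : ℚ) : ℝ) = ((primorial w : ℚ) : ℝ) *
      ((∏ p ∈ (primorial w).primeFactors, (1 - (p : ℚ)⁻¹) : ℚ) : ℝ) := by
    rw [h1]
    push_cast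
    rfl
  push_cast at h2
  rw [h2, V_eq]
  congr 1
  have e : (primorial w).primeFactors = PN w := by
    rw [primeFactors_primorial]
    ext p
    rw [mem_PN, Nat.mem_primesLE]
  rw [e]
  refine prod_congr rfl fun p _ => ?_
  rw [one_div]

section z

variable (z : ℕ → ℕ) (hz : Monotone z) (hzV : Tendsto (fun n => V (z n) * Real.log n) atTop (𝓝 1))

include hz hzV

/-- the elements beyond the modulus are sieved by all primes up to `w` -/
theorem z_ge : ∀ᶠ w : ℕ in atTop, ∀ n : ℕ, primorial w ≤ n → w ≤ z n := by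
  have h1 := Pool.Agent.Helper601.PNT.theta_div_tendsto.comp (tendsto_natCast_atTop_atTop (R := ℝ))
  have hpt : Tendsto primorial atTop atTop := by
    refine tendsto_atTop_mono' _ ?_ tendsto_id
    filter_upwards [eventually_ge_atTop 3] with w hw
    exact (lt_primorial_self hw).le
  filter_upwards [h1.eventually_const_lt (show (1 / 2 : ℝ) < 1 by norm_num),
    hpt.eventually (hzV.eventually_lt_const (show (1 : ℝ) < 2 by norm_num)), V_ge_log,
    log_small (1 / 16) (by norm_num), eventually_ge_atTop 2] with w h2 h3 h4 h5 h6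
  intro n hn
  refine le_trans ?_ (hz hn)
  have hw : (2 : ℝ) ≤ w := by exact_mod_cast h6
  have hw0 : (0 : ℝ) < w := by linarith
  simp only [Function.comp] at h2
  rw [lt_div_iff₀ hw0, Chebyshev.theta_eq_log_primorial, Nat.floor_natCast] at h2
  have hl : 0 < Real.log w := Real.log_pos (by linarith)
  by_contra hcon
  push Not at hcon
  have h7 : V w ≤ V (z (primorial w)) := V_anti hcon.le
  have h8 : 1 / (2 * Real.log w) * (1 / 2 * w) < 2 := by
    refine lt_of_le_of_lt ?_ h3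
    have h9 : 1 / (2 * Real.log w) ≤ V (z (primorial w)) := h4.trans h7
    have hV := V_pos (z (primorial w))
    gcongr
  rw [div_mul_eq_mul_div, div_lt_iff₀ (by positivity)] at h8
  linarith

/-- **The upper bound for all gaps.** -/
theorem gaps_upper (ε κ : ℝ) (hε : 0 < ε) (hε1 : ε ≤ 1 / 2) (hκ : 0 < κ) (hκ1 : κ < 1) : ∀ᶠ k : ℕ in atTop,
    ∀ b : ℕ → ℕ, UpG z ε κ k b → ∀ w : ℕ, κ * k ≤ w → w ≤ (1 - κ) * k →
      LG (R z b) (primorial w) (E k) ≤ primorial w * yU ε k w := by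
  obtain ⟨w0, hw0⟩ := eventually_atTop.1 (z_ge z hz hzV)
  filter_upwards [J_large ε κ hε hε1 hκ hκ1, yU_le ε hε (by linarith),
    (tendsto_natCast_atTop_atTop (R := ℝ)).eventually_ge_atTop (w0 / κ),
    (tendsto_natCast_atTop_atTop (R := ℝ)).eventually_ge_atTop (3 / κ), eventually_ge_atTop 4] with k hJ hyU h3 h3' h4
  intro b hb w hkw hwk
  have hk : (4 : ℝ) ≤ k := by exact_mod_cast h4
  have hwk' : w ≤ k := by
    have : (w : ℝ) ≤ k := by
      refine hwk.trans ?_
      nlinarith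
    exact_mod_cast this
  have hw0w : w0 ≤ w := by
    rw [div_le_iff₀ hκ] at h3
    have : (w0 : ℝ) ≤ w := by linarith
    exact_mod_cast this
  have hw3 : 3 ≤ w := by
    rw [div_le_iff₀ hκ] at h3'
    have : (3 : ℝ) ≤ w := by linarith
    exact_mod_cast this
  have hq3 : 3 < primorial w := lt_of_le_of_lt hw3 (lt_primorial_self (by omega))
  set q := primorial w with hq
  have hV1 := V_le_one w
  have hqy : q * yU ε k w ≤ E k := by
    have h5 := (hJ w hkw hwk).1
    have h6 := (hyU w hwk').2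
    have h7 : (yU ε k w : ℝ) ≤ 2 * k ^ 2 + 1 := by
      refine h6.trans ?_
      have : (1 + ε) * k ^ 2 * V w ≤ 2 * (k : ℝ) ^ 2 * 1 := by
        have hV := V_pos w
        have : 1 + ε ≤ 2 := by linarith
        gcongr
      linarith
    have h8 : ((q * yU ε k w : ℕ) : ℝ) ≤ E k := by
      refine le_trans ?_ (E_lower k)
      refine le_trans ?_ h5
      push_cast
      have h9 : (yU ε k w : ℝ) ≤ 8 * k ^ 6 := by
        have h10 : (k : ℝ) ^ 2 ≤ (k : ℝ) ^ 6 := pow_le_pow_right₀ (by linarith) (by norm_num)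
        have h11 : (1 : ℝ) ≤ (k : ℝ) ^ 6 := one_le_pow₀ (by linarith)
        linarith
      calc (q : ℝ) * yU ε k w ≤ q * (8 * k ^ 6) := by gcongr
        _ = 8 * q * k ^ 6 := by ring
    exact_mod_cast h8
  refine LG_le ?_
  rintro g ⟨n, n', hn, hn', hlt, hnX, hmod, hcons, rfl⟩
  have hnn' : n + q ≤ n' := by
    have h5 : q ∣ n' - n := (Nat.modEq_iff_dvd' hlt.le).1 hmod
    have h6 : q ≤ n' - n := Nat.le_of_dvd (by omega) h5
    omega
  have hzn' : w ≤ z n' := hw0 w hw0w n' (by omega)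
  obtain ⟨t, ht, htp⟩ := hb w hkw hwk n (by omega)
  obtain ⟨m, hm, rfl⟩ := mem_Wd.1 ht
  have hqm : q * m ≤ q * yU ε k w := Nat.mul_le_mul_left _ hm.2
  have htR : n + q * m ∈ R z b := by
    refine ⟨by have := hn.1; omega, fun p hpz hp => ?_⟩
    rcases le_or_gt p w with hpw | hpw
    · have hpq : p ∣ q := (Nat.Prime.dvd_primorial_iff hp).2 hpw
      have h5 : (n + q * m) ≡ n' [MOD p] := by
        have h6 : n ≡ n' [MOD p] := hmod.of_dvd hpq
        have h7 : q * m ≡ 0 [MOD p] := (Nat.modEq_zero_iff_dvd).2 (hpq.mul_right m)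
        have := h6.add h7
        rwa [add_zero] at this
      have h6 := hn'.2 p (hpw.trans hzn') hp
      intro h7
      exact h6 ((show n' % p = (n + q * m) % p from h5.symm).trans h7)
    · refine htp p ?_
      rw [mem_PI]
      refine ⟨⟨hpw, hpz.trans (hz ?_)⟩, hp⟩
      omega
  by_contra hcon
  push Not at hcon
  refine hcons (n + q * m) ?_ ?_ ?_ htR
  · have : 0 < q * m := Nat.mul_pos (by omega) (by omega)
    omega
  · omega
  · show (n + q * m) % q = n % q
    simp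

/-- **A large gap.** -/
theorem gaps_lower (ε κ : ℝ) (hε : 0 < ε) (hε1 : ε ≤ 1 / 2) (hκ : 0 < κ) (hκ1 : κ < 1) : ∀ᶠ k : ℕ in atTop,
    ∀ b : ℕ → ℕ, UpG z ε κ k b → LowG z ε κ k b → ∀ w : ℕ, κ * k ≤ w → w ≤ (1 - κ) * k →
      primorial w * (yL ε k w + 1) ≤ LG (R z b) (primorial w) (E k) := by
  filter_upwards [J_large ε κ hε hε1 hκ hκ1, yU_le ε hε (by linarith), Y_le_z z hzV Scl_eighth,
    (tendsto_natCast_atTop_atTop (R := ℝ)).eventually_ge_atTop (3 / κ), eventually_ge_atTop 10] with k hJ hyU hYz h3' h4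
  intro b hU hL w hkw hwk
  have hk : (10 : ℝ) ≤ k := by exact_mod_cast h4
  have hwk' : w ≤ k := by
    have : (w : ℝ) ≤ k := by
      refine hwk.trans ?_
      nlinarith
    exact_mod_cast this
  have hw3 : 3 ≤ w := by
    rw [div_le_iff₀ hκ] at h3'
    have : (3 : ℝ) ≤ w := by linarith
    exact_mod_cast this
  have hq3 : 3 < primorial w := lt_of_le_of_lt hw3 (lt_primorial_self (by omega))
  have hV1 := V_le_one w
  obtain ⟨i, hi, hkill⟩ := hL w hkw hwk
  obtain ⟨hJ6, hJ3, hJ8, hJ4⟩ := hJ w hkw hwk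
  set q := primorial w with hq
  set y := yL ε k w with hy
  set J := JJ ε k w with hJd
  rw [mem_product, mem_Ico] at hi
  obtain ⟨hc, hj1, hj2⟩ := hi
  unfold Sw at hc
  rw [mem_filter, mem_range] at hc
  obtain ⟨hcq, hcp⟩ := hc
  -- sizes
  have hyU2 : yU ε k w ≤ 3 * k ^ 2 := by
    have h6 := (hyU w hwk').2
    have h7 : (yU ε k w : ℝ) ≤ ((3 * k ^ 2 : ℕ) : ℝ) := by
      refine h6.trans ?_
      push_cast
      have : (1 + ε) * k ^ 2 * V w ≤ 3 / 2 * (k : ℝ) ^ 2 * 1 := by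
        have hV := V_pos w
        have : 1 + ε ≤ 3 / 2 := by linarith
        gcongr
      nlinarith
    exact_mod_cast h7
  have hqyU : q * yU ε k w ≤ q * (3 * k ^ 2) := Nat.mul_le_mul_left _ hyU2
  have hqJ : q * k ^ 3 ≤ q * J := Nat.mul_le_mul_left _ hJ3
  have hk3 : 10 * k ^ 2 ≤ k ^ 3 := by
    have : k ^ 3 = k * k ^ 2 := by ring
    rw [this]
    exact Nat.mul_le_mul_right _ h4
  have hq10 : q * (10 * k ^ 2) ≤ q * k ^ 3 := Nat.mul_le_mul_left _ hk3
  have hk1 : 1 ≤ k ^ 2 := Nat.one_le_pow _ _ (by omega)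
  have hqk : q * 1 ≤ q * k ^ 2 := Nat.mul_le_mul_left _ hk1
  have hqEk : 8 * (q * (3 * k ^ 2)) ≤ E k := by
    have h8 : ((8 * (q * (3 * k ^ 2)) : ℕ) : ℝ) ≤ E k := by
      refine le_trans ?_ (E_lower k)
      refine le_trans ?_ hJ6
      push_cast
      have h9 : (3 : ℝ) * k ^ 2 ≤ k ^ 6 := by
        have h10 : (k : ℝ) ^ 6 = (k : ℝ) ^ 4 * (k : ℝ) ^ 2 := by ring
        have h11 : (3 : ℝ) ≤ (k : ℝ) ^ 4 := by
          calc (3 : ℝ) ≤ 10 ^ 4 := by norm_num
            _ ≤ (k : ℝ) ^ 4 := by gcongr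
        rw [h10]
        gcongr
      calc 8 * ((q : ℝ) * (3 * (k : ℝ) ^ 2)) ≤ 8 * ((q : ℝ) * (k : ℝ) ^ 6) := by gcongr
        _ = 8 * (q : ℝ) * (k : ℝ) ^ 6 := by ring
    exact_mod_cast h8
  set u := pos q y i with hu
  have hupos : u = i.1 + q * ((y + 1) * i.2) := rfl
  have hulow : q * (y + 1) * J ≤ u := by
    have : q * (y + 1) * J ≤ q * ((y + 1) * i.2) := by
      rw [mul_assoc]
      exact Nat.mul_le_mul_left _ (Nat.mul_le_mul_left _ hj1)
    omega
  have huup : u + q * y ≤ 2 * (q * (y + 1) * J) := by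
    have h5 : q * ((y + 1) * (i.2 + 1)) ≤ q * ((y + 1) * (2 * J)) :=
      Nat.mul_le_mul_left _ (Nat.mul_le_mul_left _ hj2)
    have e1 : q * ((y + 1) * (i.2 + 1)) = q * ((y + 1) * i.2) + q + q * y := by ring
    have e2 : q * ((y + 1) * (2 * J)) = 2 * (q * (y + 1) * J) := by ring
    omega
  have hqJu : q * J ≤ u := by
    have : q * J ≤ q * (y + 1) * J := by
      have h5 : q * 1 ≤ q * (y + 1) := Nat.mul_le_mul_left _ (by omega)
      rw [mul_one] at h5
      exact Nat.mul_le_mul_right _ h5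
    omega
  have humod : ∀ p, p.Prime → p ≤ w → ∀ n, n ≡ u [MOD q] → n % p ≠ b p := by
    intro p hp hpw n hn
    have hpq : p ∣ q := (Nat.Prime.dvd_primorial_iff hp).2 hpw
    have h5 : n ≡ u [MOD p] := hn.of_dvd hpq
    have h6 : u ≡ i.1 [MOD p] := by
      rw [hupos]
      have h7 : q * ((y + 1) * i.2) ≡ 0 [MOD p] := (Nat.modEq_zero_iff_dvd).2 (hpq.mul_right _)
      have := (Nat.ModEq.refl (n := p) i.1).add h7
      rwa [add_zero] at this
    have h7 : n % p = i.1 % p := h5.trans h6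
    rw [h7]
    exact hcp p ((mem_PN _ _).2 ⟨hpw, hp⟩)
  -- survivors in long windows
  have hlong : ∀ v ≤ E k, v ≡ u [MOD q] → 3 ≤ v → ∃ t ∈ R z b, t ≡ u [MOD q] ∧ v < t ∧ t ≤ v + q * yU ε k w := by
    intro v hv hvu hv3
    obtain ⟨t, ht, htp⟩ := hU w hkw hwk v hv
    obtain ⟨m, hm, rfl⟩ := mem_Wd.1 ht
    have hqm : q * m ≤ q * yU ε k w := Nat.mul_le_mul_left _ hm.2
    have hqm0 : 0 < q * m := Nat.mul_pos (by omega) (by omega)
    have hmod : v + q * m ≡ u [MOD q] := by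
      have h7 : q * m ≡ 0 [MOD q] := (Nat.modEq_zero_iff_dvd).2 (Dvd.intro m rfl)
      have := hvu.add h7
      rwa [add_zero] at this
    refine ⟨v + q * m, ⟨by omega, fun p hpz hp => ?_⟩, hmod, by omega, by omega⟩
    rcases le_or_gt p w with hpw | hpw
    · exact humod p hp hpw _ hmod
    · refine htp p ?_
      rw [mem_PI]
      refine ⟨⟨hpw, hpz.trans (hz ?_)⟩, hp⟩
      omega
  -- the empty window
  have hempty : ∀ m, 1 ≤ m → m ≤ y → u + q * m ∉ R z b := by
    intro m hm1 hm2 hR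
    have hzt : z (E k / 8) ≤ z (u + q * m) := hz (by omega)
    by_cases hs : ∀ p ∈ PI w (Yk k), (u + q * m) % p ≠ b p
    · obtain ⟨p, hp, h5⟩ := hkill (u + q * m) (by
        unfold Sw
        rw [mem_filter, mem_Wd]
        exact ⟨⟨m, ⟨hm1, hm2⟩, rfl⟩, hs⟩)
      rw [mem_PI] at hp
      exact hR.2 p (hp.1.2.trans hzt) hp.2 h5
    · push Not at hs
      obtain ⟨p, hp, h5⟩ := hs
      rw [mem_PI] at hp
      exact hR.2 p ((hp.1.2.trans hYz).trans hzt) hp.2 h5
  -- the elements around the window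
  have hA1 : q * yU ε k w ≤ 3 * (q * k ^ 2) := by
    have e : q * (3 * k ^ 2) = 3 * (q * k ^ 2) := by ring
    omega
  have hA2 : 10 * (q * k ^ 2) ≤ q * J := by
    have e : q * (10 * k ^ 2) = 10 * (q * k ^ 2) := by ring
    omega
  have hA3 : q ≤ q * k ^ 2 := by omega
  have hA4 : 24 * (q * k ^ 2) ≤ E k := by
    have e : 8 * (q * (3 * k ^ 2)) = 24 * (q * k ^ 2) := by ring
    omega
  have hqy0 : q * yU ε k w + 3 ≤ u := by
    clear hqyU hqJ hq10 hqk hqEk
    omega
  obtain ⟨t1, ht1R, ht1m, ht1l, ht1u⟩ := hlong (u - q * yU ε k w) (by omega) (by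
    have h5 : (u - q * yU ε k w) + q * yU ε k w ≡ u [MOD q] := by
      rw [Nat.sub_add_cancel (by omega)]
    have h7 : q * yU ε k w ≡ 0 [MOD q] := (Nat.modEq_zero_iff_dvd).2 (Dvd.intro _ rfl)
    have h8 := (Nat.ModEq.refl (n := q) (u - q * yU ε k w)).add h7
    rw [add_zero] at h8
    exact h8.symm.trans h5) (by omega)
  have ht1u' : t1 ≤ u := by omega
  obtain ⟨t2, ht2R, ht2m, ht2l, ht2u⟩ := hlong u (by omega) rfl (by omega)
  classical
  set A := (range (u + 1)).filter fun n => n ∈ R z b ∧ n ≡ u [MOD q] with hA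
  have hAne : A.Nonempty := ⟨t1, by rw [hA, mem_filter, mem_range]; exact ⟨by omega, ht1R, ht1m⟩⟩
  set n := A.max' hAne with hn
  have hnA : n ∈ A := A.max'_mem hAne
  rw [hA, mem_filter, mem_range] at hnA
  have hex : ∃ m, u < m ∧ m ∈ R z b ∧ m ≡ u [MOD q] := ⟨t2, ht2l, ht2R, ht2m⟩
  set n' := Nat.find hex with hn'
  obtain ⟨hn'1, hn'2, hn'3⟩ := Nat.find_spec hex
  rw [← hn'] at hn'1 hn'2 hn'3
  have hn't2 : n' ≤ t2 := Nat.find_min' hex ⟨ht2l, ht2R, ht2m⟩
  have hfar : u + q * (y + 1) ≤ n' := by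
    have h5 : q ∣ n' - u := (Nat.modEq_iff_dvd' hn'1.le).1 hn'3.symm
    obtain ⟨m, hm⟩ := h5
    have hm0 : 1 ≤ m := by
      rcases Nat.eq_zero_or_pos m with h6 | h6
      · rw [h6, mul_zero] at hm
        omega
      · exact h6
    by_contra hcon
    push Not at hcon
    have h6 : q * m < q * (y + 1) := by omega
    have h7 : m < y + 1 := Nat.lt_of_mul_lt_mul_left h6
    have h8 : n' = u + q * m := by omega
    exact hempty m hm0 (by omega) (h8 ▸ hn'2)
  have hg : n' - n ∈ Gaps (R z b) q (E k) := by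
    refine ⟨n, n', hnA.2.1, hn'2, by omega, by omega, hnA.2.2.trans hn'3.symm, ?_, rfl⟩
    intro m hm1 hm2 hm3 hmR
    have hmu : m ≡ u [MOD q] := hm3.trans hnA.2.2
    rcases le_or_gt m u with h5 | h5
    · have h6 : m ∈ A := by
        rw [hA, mem_filter, mem_range]
        exact ⟨by omega, hmR, hmu⟩
      have := A.le_max' m h6
      omega
    · exact Nat.find_min hex hm2 ⟨h5, hmR, hmu⟩
  have := le_LG hg
  omega

end z

end Pool.Agent.H531.CP
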