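import Pool.Agent.H531.CP.Det

set_option autoImplicit false

/-!
# The largest gap in the classes modulo a primorial
-/

open Finset MeasureTheory ProbabilityTheory Filter Topology
open scoped ENNReal

namespace Pool.Agent.H531.CP

open Pool.Agent.T2H31.HV Pool.Agent.H531.SI Pool.Agent.H531.MS
open Pool.Agent.T2H32.BF hiding PI

theorem z_top (z : ℕ → ℕ) (hzV : Tendsto (fun n => V (z n) * Real.log n) atTop (𝓝 1)) :
    Tendsto z atTop atTop := by
  rw [tendsto_atTop]
  intro M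
  have hV := V_pos M
  have h1 : Tendsto (fun n : ℕ => Real.log n) atTop atTop := Real.tendsto_log_atTop.comp tendsto_natCast_atTop_atTop
  filter_upwards [hzV.eventually_lt_const (show (1 : ℝ) < 2 by norm_num), h1.eventually_ge_atTop (2 / V M)] with n h2 h3
  by_contra hcon
  push Not at hcon
  have h4 : V M ≤ V (z n) := V_anti hcon.le
  have h5 : V M * (2 / V M) ≤ V (z n) * Real.log n := by
    have : 0 ≤ 2 / V M := by positivity
    have hz0 := V_pos (z n)
    gcongr
  rw [mul_div_cancel₀ _ hV.ne'] at h5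
  linarith

section prob

variable {Ω : Type} [MeasurableSpace Ω] {P : Measure Ω} {a : ℕ → Ω → ℕ}

/-- Borel–Cantelli -/
theorem bc (h : Model P a) (B : ℕ → (ℕ → ℕ) → Prop)
    (hB : ∀ᶠ k : ℕ in atTop, P.real {ω | ¬ B k fun p => a p ω} ≤ 1 / (k : ℝ) ^ 2) :
    ∀ᵐ ω ∂P, ∀ᶠ k : ℕ in atTop, B k fun p => a p ω := by
  have := prob h
  obtain ⟨K, hK⟩ := eventually_atTop.1 hB
  have hsum : ∑' k : ℕ, P {ω | ¬ B (k + (K + 1)) fun p => a p ω} ≠ ∞ := by
    have hb : ∀ k : ℕ, P {ω | ¬ B (k + (K + 1)) fun p => a p ω} ≤ ENNReal.ofReal (1 / ((k + 1 : ℕ) : ℝ) ^ 2) := by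
      intro k
      have h2 := hK (k + (K + 1)) (by omega)
      have h3 : P.real {ω | ¬ B (k + (K + 1)) fun p => a p ω} ≤ 1 / ((k + 1 : ℕ) : ℝ) ^ 2 := by
        refine h2.trans ?_
        have : ((k + 1 : ℕ) : ℝ) ≤ ((k + (K + 1) : ℕ) : ℝ) := by exact_mod_cast (by omega)
        gcongr
      rw [← ENNReal.ofReal_toReal (measure_ne_top P _)]
      exact ENNReal.ofReal_le_ofReal h3
    refine ne_top_of_le_ne_top ?_ (ENNReal.tsum_le_tsum hb)
    have hs : Summable (fun k : ℕ => 1 / ((k + 1 : ℕ) : ℝ) ^ 2) :=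
      (summable_nat_add_iff (f := fun k : ℕ => 1 / (k : ℝ) ^ 2) 1).2 (Real.summable_one_div_nat_pow.2 (by norm_num))
    exact hs.tsum_ofReal_ne_top
  have h2 := ae_eventually_notMem hsum
  filter_upwards [h2] with ω hω
  obtain ⟨N, hN⟩ := eventually_atTop.1 hω
  refine eventually_atTop.2 ⟨N + (K + 1), fun k hk => ?_⟩
  have h3 := hN (k - (K + 1)) (by omega)
  rw [Nat.sub_add_cancel (by omega)] at h3
  simpa using h3

/-- **The largest gap.** -/
theorem main (h : Model P a) (z : ℕ → ℕ) (hz : Monotone z)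
    (hzV : Tendsto (fun n => V (z n) * Real.log n) atTop (𝓝 1)) :
    ∀ᵐ ω ∂P, ∀ δ : ℝ, 0 < δ → ∀ᶠ X : ℕ in atTop, ∀ w : ℕ, δ * Real.log X ≤ w → w ≤ (1 - δ) * Real.log X →
      (1 - δ) * ((Nat.totient (primorial w) : ℝ) * Real.log X ^ 2) ≤
          (LG (R z fun p => a p ω) (primorial w) X : ℝ) ∧
        (LG (R z fun p => a p ω) (primorial w) X : ℝ) ≤
          (1 + δ) * ((Nat.totient (primorial w) : ℝ) * Real.log X ^ 2) := by
  have hzt := z_top z hzV
  set e : ℕ → ℝ := fun n => 1 / ((n : ℝ) + 2) with he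
  have he0 : ∀ n, 0 < e n := fun n => by simp only [he]; positivity
  have he1 : ∀ n, e n ≤ 1 / 2 := fun n => by
    simp only [he]
    apply one_div_le_one_div_of_le (by norm_num)
    have : (0 : ℝ) ≤ n := Nat.cast_nonneg n
    linarith
  have hae : ∀ᵐ ω ∂P, ∀ n : ℕ, (∀ᶠ k : ℕ in atTop, UpG z (e n) (e n) k fun p => a p ω) ∧
      ∀ᶠ k : ℕ in atTop, LowG z (e n) (e n) k fun p => a p ω := by
    rw [ae_all_iff]
    intro n
    have h1 := bc h (fun k b => UpG z (e n) (e n) k b) (up_prob h z hzV (e n) (e n) (he0 n)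
      ((he1 n).trans (by norm_num)) (he0 n))
    have h2 := bc h (fun k b => LowG z (e n) (e n) k b) (low_prob h z hzV hzt (e n) (e n) (he0 n) (he1 n) (he0 n)
      (lt_of_le_of_lt (he1 n) (by norm_num)))
    filter_upwards [h1, h2] with ω h3 h4
    exact ⟨h3, h4⟩
  filter_upwards [hae] with ω hω δ hδ
  -- the parameter
  obtain ⟨n, hn⟩ := exists_nat_gt (16 / δ)
  set ε := e n with hε
  have hε0 := he0 n
  rw [← hε] at hε0
  have hε1 := he1 n
  rw [← hε] at hε1
  have hεδ : ε ≤ δ / 16 := by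
    simp only [hε, he]
    rw [div_le_div_iff₀ (by positivity) (by norm_num)]
    rw [div_lt_iff₀ hδ] at hn
    nlinarith
  obtain ⟨hU, hL⟩ := hω n
  rw [← hε] at hU hL
  set b := fun p => a p ω with hb
  obtain ⟨k1, hk1⟩ := eventually_atTop.1 (hU.and (hL.and ((gaps_upper z hz hzV ε ε hε0 hε1 hε0 (by linarith)).and
    ((gaps_lower z hz hzV ε ε hε0 hε1 hε0 (by linarith)).and (V_mul_ge.and ((yL_bounds ε hε0 hε1).and
      (yU_le ε hε0 (by linarith))))))))
  have hlog : Tendsto (fun X : ℕ => Real.log X) atTop atTop := Real.tendsto_log_atTop.comp tendsto_natCast_atTop_atTop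
  filter_upwards [hlog.eventually_ge_atTop (max ((k1 : ℝ) + 1) (100 / ε)), eventually_ge_atTop 1] with X hX hX1
  intro w hw1 hw2
  have hX0 : (0 : ℝ) < X := by exact_mod_cast hX1
  set L := Real.log X with hLdef
  have hLk1 : (k1 : ℝ) + 1 ≤ L := (le_max_left _ _).trans hX
  have hLε : 100 / ε ≤ L := (le_max_right _ _).trans hX
  rw [div_le_iff₀ hε0] at hLε
  have hL0 : 0 < L := by
    have : (0 : ℝ) ≤ k1 := Nat.cast_nonneg _
    linarith
  set k := ⌊L⌋₊ with hk
  have hkL : (k : ℝ) ≤ L := Nat.floor_le hL0.le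
  have hLk : L < k + 1 := Nat.lt_floor_add_one L
  have hkk1 : k1 ≤ k := Nat.le_floor (by linarith)
  have hEX : E k ≤ X := by
    unfold E
    apply Nat.ceil_le.2
    rw [← Real.exp_log hX0]
    exact Real.exp_le_exp.2 hkL
  have hXE : X ≤ E (k + 1) := by
    have h1 : (X : ℝ) ≤ E (k + 1) := by
      refine le_trans ?_ (E_lower (k + 1))
      rw [← Real.exp_log hX0]
      apply Real.exp_le_exp.2
      push_cast
      exact hLk.le
    exact_mod_cast h1
  have hδ1 : δ < 1 := by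
    by_contra hcon
    push Not at hcon
    have h1 : (1 - δ) * L ≤ 0 := mul_nonpos_of_nonpos_of_nonneg (by linarith) hL0.le
    have h2 : 0 < δ * L := by positivity
    linarith
  have hk0 : (0 : ℝ) < k := by
    have : (0 : ℝ) ≤ k1 := Nat.cast_nonneg _
    linarith
  -- `w` is in both ranges
  have hLbig : 100 ≤ ε * L := by linarith
  have hkbig : 90 ≤ ε * k := by nlinarith
  have hwk1 : ε * k ≤ w := by
    refine le_trans ?_ hw1
    have : ε * k ≤ δ * L := by
      have : ε ≤ δ := by linarith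
      gcongr
    exact this
  have hwk2 : (w : ℝ) ≤ (1 - ε) * k := by
    refine hw2.trans ?_
    have h1 : (1 - δ) * L ≤ (1 - δ) * (k + 1) := by
      apply mul_le_mul_of_nonneg_left hLk.le
      linarith
    refine h1.trans ?_
    nlinarith
  have hwk3 : ε * ((k + 1 : ℕ) : ℝ) ≤ w := by
    push_cast
    refine le_trans ?_ hw1
    have h1 : ε * (k + 1) ≤ δ * k := by nlinarith
    have h2 : δ * k ≤ δ * L := by gcongr
    linarith
  have hwk4 : (w : ℝ) ≤ (1 - ε) * ((k + 1 : ℕ) : ℝ) := by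
    refine hwk2.trans ?_
    push_cast
    nlinarith
  obtain ⟨hUk, hLk', -, hgl, -, hyL, -⟩ := hk1 k hkk1
  obtain ⟨hUk1, -, hgu, -, hVk1, -, hyU⟩ := hk1 (k + 1) (by omega)
  have hwk : w ≤ k := by
    have : (w : ℝ) ≤ k := by
      refine hwk2.trans ?_
      nlinarith
    exact_mod_cast this
  have hVw := V_pos w
  have hq : (0 : ℝ) < primorial w := by exact_mod_cast primorial_pos w
  rw [totient_primorial w]
  constructor
  · -- the lower bound
    have h1 := hgl b hUk hLk' w hwk1 hwk2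
    have h2 := LG_mono (R z b) (primorial w) hEX
    have h3 : (primorial w : ℝ) * (yL ε k w + 1) ≤ (LG (R z b) (primorial w) X : ℝ) := by exact_mod_cast h1.trans h2
    refine le_trans ?_ h3
    have h4 := (hyL w hwk).2.2.1
    have h5 : (1 - δ) * L ^ 2 ≤ (1 - ε) * k ^ 2 := by
      have h6 : (1 - ε) * L ≤ k := by nlinarith
      have h7 : ((1 - ε) * L) ^ 2 ≤ (k : ℝ) ^ 2 := by
        have : 0 ≤ (1 - ε) * L := mul_nonneg (by linarith) hL0.le
        gcongr
      have h8 : (1 - ε) * ((1 - ε) * L) ^ 2 ≤ (1 - ε) * k ^ 2 := mul_le_mul_of_nonneg_left h7 (by linarith)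
      refine le_trans ?_ h8
      have e1 : (1 - ε) * ((1 - ε) * L) ^ 2 = (1 - ε) ^ 3 * L ^ 2 := by ring
      rw [e1]
      apply mul_le_mul_of_nonneg_right _ (sq_nonneg L)
      nlinarith [sq_nonneg ε]
    calc (1 - δ) * (primorial w * V w * L ^ 2) = primorial w * V w * ((1 - δ) * L ^ 2) := by ring
      _ ≤ primorial w * V w * ((1 - ε) * k ^ 2) := by gcongr
      _ = primorial w * ((1 - ε) * k ^ 2 * V w) := by ring
      _ ≤ primorial w * (yL ε k w + 1) := by gcongr
  · -- the upper bound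
    have h1 := hgu b hUk1 w hwk3 hwk4
    have h2 := LG_mono (R z b) (primorial w) hXE
    have h3 : (LG (R z b) (primorial w) X : ℝ) ≤ (primorial w : ℝ) * yU ε (k + 1) w := by exact_mod_cast h2.trans h1
    refine h3.trans ?_
    have h4 := (hyU w (by omega)).2
    have h5 := hVk1 w (by omega)
    push_cast at h4 h5
    have h6 : (yU ε (k + 1) w : ℝ) ≤ (1 + 2 * ε) * (((k : ℝ) + 1) ^ 2 * V w) := by
      refine h4.trans ?_
      have h7 : 1 ≤ ε * (((k : ℝ) + 1) ^ 2 * V w) := by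
        have h8 : ε * ((k : ℝ) + 1) ≤ ε * (((k : ℝ) + 1) ^ 2 * V w) := mul_le_mul_of_nonneg_left h5 hε0.le
        nlinarith
      linarith
    have h9 : (1 + 2 * ε) * ((k : ℝ) + 1) ^ 2 ≤ (1 + δ) * L ^ 2 := by
      have h10 : (k : ℝ) + 1 ≤ (1 + ε) * L := by nlinarith
      have h11 : ((k : ℝ) + 1) ^ 2 ≤ ((1 + ε) * L) ^ 2 := by gcongr
      calc (1 + 2 * ε) * ((k : ℝ) + 1) ^ 2 ≤ (1 + 2 * ε) * ((1 + ε) * L) ^ 2 := by gcongr
        _ = (1 + 2 * ε) * (1 + ε) ^ 2 * L ^ 2 := by ring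
        _ ≤ (1 + δ) * L ^ 2 := by
          apply mul_le_mul_of_nonneg_right _ (sq_nonneg L)
          nlinarith [sq_nonneg ε, mul_pos hε0 hε0, mul_pos (mul_pos hε0 hε0) hε0]
    calc (primorial w : ℝ) * yU ε (k + 1) w ≤ primorial w * ((1 + 2 * ε) * (((k : ℝ) + 1) ^ 2 * V w)) := by gcongr
      _ = primorial w * V w * ((1 + 2 * ε) * ((k : ℝ) + 1) ^ 2) := by ring
      _ ≤ primorial w * V w * ((1 + δ) * L ^ 2) := by gcongr
      _ = _ := by ring

end prob

end Pool.Agent.H531.CP
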