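import Pool.Agent.H531.MS.Core

set_option autoImplicit false

/-!
# Sieving a set by random classes: exponential moments with a large parameter
-/

open Finset MeasureTheory ProbabilityTheory Filter Topology

namespace Pool.Agent.H531.CP

open Pool.Agent.T2H31.HV Pool.Agent.T2H32.BF Pool.Agent.H531.SI Pool.Agent.H531.MS

/-- the chord of the exponential function -/
theorem exp_chord (x c K : ℝ) (hc : 0 ≤ c) (hK : 0 < K) (hcK : c ≤ K) :
    Real.exp (x * c) ≤ 1 + c * ((Real.exp (x * K) - 1) / K) := by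
  have h0 : 0 ≤ 1 - c / K := by
    have : c / K ≤ 1 := (div_le_one hK).2 hcK
    linarith
  have h := convexOn_exp.2 (Set.mem_univ (x * K)) (Set.mem_univ (0 : ℝ)) (show 0 ≤ c / K by positivity) h0 (by ring)
  simp only [smul_eq_mul, mul_zero, add_zero, Real.exp_zero, mul_one] at h
  have e : c / K * (x * K) = x * c := by field_simp
  rw [e] at h
  refine h.trans (le_of_eq ?_)
  ring

/-- the step of both inductions -/
theorem step_gen (T L : Finset ℕ) (p : ℕ) (hp : p ∉ L) (hpp : p.Prime) (K : ℝ) (hK0 : 0 < K)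
    (hK : ∀ r, ((T.filter fun t => t % p = r).card : ℝ) ≤ K) (x : ℝ) (b : ℕ → ℕ) :
    (1 / (p : ℝ)) * ∑ r ∈ range p, Real.exp (-x * (Sw T (insert p L) (Function.update b p r)).card) ≤
      Real.exp (-(x - (Real.exp (x * K) - 1) / (p * K)) * (Sw T L b).card) := by
  classical
  have hp0 : (0 : ℝ) < p := by exact_mod_cast hpp.pos
  set U := Sw T L b with hU
  have hUT : U ⊆ T := by
    rw [hU]
    exact filter_subset _ _
  have hcK : ∀ r, ((U.filter fun t => t % p = r).card : ℝ) ≤ K := by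
    intro r
    refine le_trans ?_ (hK r)
    have : (U.filter fun t => t % p = r).card ≤ (T.filter fun t => t % p = r).card :=
      card_le_card (filter_subset_filter _ hUT)
    exact_mod_cast this
  have h1 : ∀ r, Real.exp (-x * (Sw T (insert p L) (Function.update b p r)).card) ≤
      Real.exp (-x * U.card) * (1 + ((U.filter fun t => t % p = r).card : ℝ) * ((Real.exp (x * K) - 1) / K)) := by
    intro r
    rw [card_update T L p hp b r]
    have e : -x * ((U.card : ℝ) - ((U.filter fun t => t % p = r).card : ℝ)) =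
        -x * U.card + x * ((U.filter fun t => t % p = r).card : ℝ) := by ring
    rw [← hU, e, Real.exp_add]
    apply mul_le_mul_of_nonneg_left _ (Real.exp_pos _).le
    exact exp_chord x _ K (Nat.cast_nonneg _) hK0 (hcK r)
  have h2 : ∑ r ∈ range p, Real.exp (-x * (Sw T (insert p L) (Function.update b p r)).card) ≤
      Real.exp (-x * U.card) * (p + U.card * ((Real.exp (x * K) - 1) / K)) := by
    refine (sum_le_sum fun r _ => h1 r).trans_eq ?_
    rw [← mul_sum, sum_add_distrib, ← sum_mul, sum_class U p hpp.pos]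
    simp
  calc (1 / (p : ℝ)) * ∑ r ∈ range p, Real.exp (-x * (Sw T (insert p L) (Function.update b p r)).card)
      ≤ (1 / (p : ℝ)) * (Real.exp (-x * U.card) * (p + U.card * ((Real.exp (x * K) - 1) / K))) := by
        apply mul_le_mul_of_nonneg_left h2 (by positivity)
    _ = Real.exp (-x * U.card) * ((Real.exp (x * K) - 1) / (p * K) * U.card + 1) := by
        field_simp
        ring
    _ ≤ Real.exp (-x * U.card) * Real.exp ((Real.exp (x * K) - 1) / (p * K) * U.card) := by
        apply mul_le_mul_of_nonneg_left (Real.add_one_le_exp _) (Real.exp_pos _).le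
    _ = Real.exp (-(x - (Real.exp (x * K) - 1) / (p * K)) * U.card) := by
        rw [← Real.exp_add]
        congr 1
        ring

theorem rho_mem (L : Finset ℕ) (hL : ∀ p ∈ L, p.Prime) :
    0 ≤ ∏ p ∈ L, (1 - 1 / (p : ℝ)) ∧ ∏ p ∈ L, (1 - 1 / (p : ℝ)) ≤ 1 :=
  ⟨(prod_pos' hL).le, prod_le_one' hL⟩

/-- **Positive parameters of any size.** -/
theorem mgf_pos (T L : Finset ℕ) (K : ℕ → ℝ) (hL : ∀ p ∈ L, p.Prime) (hK0 : ∀ p ∈ L, 0 < K p)
    (hK : ∀ p ∈ L, ∀ r, ((T.filter fun t => t % p = r).card : ℝ) ≤ K p) (l : ℝ) (hl : 0 ≤ l) :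
    Ev L (fun b => Real.exp (l * (Sw T L b).card)) ≤
      Real.exp (T.card * (l * ∏ p ∈ L, (1 - 1 / (p : ℝ)) + l ^ 2 * ∑ p ∈ L, K p / p)) := by
  classical
  induction L using Finset.induction_on generalizing l with
  | empty => simp [Ev_empty, Sw_empty, mul_comm]
  | insert p L hp ih =>
    have hpp := hL p (mem_insert_self _ _)
    have hp2 : (2 : ℝ) ≤ p := by exact_mod_cast hpp.two_le
    have hp0 : (0 : ℝ) < p := by linarith
    have hKp0 := hK0 p (mem_insert_self _ _)
    set l1 := l - (1 - Real.exp (-(l * K p))) / (p * K p) with hl1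
    have hstep : ∀ b, (1 / (p : ℝ)) * ∑ r ∈ range p, Real.exp (l * (Sw T (insert p L) (Function.update b p r)).card) ≤
        Real.exp (l1 * (Sw T L b).card) := by
      intro b
      have h := step_gen T L p hp hpp (K p) hKp0 (hK p (mem_insert_self _ _)) (-l) b
      simp only [neg_neg] at h
      refine h.trans (Real.exp_le_exp.2 (le_of_eq ?_))
      rw [hl1]
      have : -l * K p = -(l * K p) := by ring
      rw [this]
      ring
    have he1 : Real.exp (-(l * K p)) ≤ 1 := Real.exp_le_one_iff.2 (by have := mul_nonneg hl hKp0.le; linarith)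
    have he2 : 1 - l * K p ≤ Real.exp (-(l * K p)) := by
      have := Real.add_one_le_exp (-(l * K p))
      linarith
    have he3 : l * K p - (l * K p) ^ 2 ≤ 1 - Real.exp (-(l * K p)) := by
      have hx : 0 ≤ l * K p := mul_nonneg hl hKp0.le
      -- `exp (-x) ≤ 1 - x + x ^ 2`
      have h3 : Real.exp (-(l * K p)) ≤ 1 - l * K p + (l * K p) ^ 2 := by
        rcases le_total (l * K p) 1 with h4 | h4
        · have := exp_quad (-(l * K p)) (by rw [abs_neg, abs_of_nonneg hx]; exact h4)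
          nlinarith
        · nlinarith
      linarith
    have hl1l : l1 ≤ l := by
      rw [hl1]
      have : 0 ≤ (1 - Real.exp (-(l * K p))) / (p * K p) := div_nonneg (by linarith) (by positivity)
      linarith
    have hl10 : 0 ≤ l1 := by
      rw [hl1]
      have : (1 - Real.exp (-(l * K p))) / (p * K p) ≤ l := by
        rw [div_le_iff₀ (by positivity)]
        have h5 : l * K p ≤ l * (p * K p) := by
          have : K p ≤ p * K p := by nlinarith
          exact mul_le_mul_of_nonneg_left this hl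
        linarith
      linarith
    have hl1u : l1 ≤ l * (1 - 1 / p) + l ^ 2 * (K p / p) := by
      rw [hl1]
      have h5 : (l * K p - (l * K p) ^ 2) / (p * K p) ≤ (1 - Real.exp (-(l * K p))) / (p * K p) :=
        div_le_div_of_nonneg_right he3 (by positivity)
      have e : (l * K p - (l * K p) ^ 2) / (p * K p) = l * (1 / p) - l ^ 2 * (K p / p) := by
        field_simp
      rw [e] at h5
      linarith
    rw [Ev_insert L p hp]
    refine (Ev_mono L _ _ fun b _ => hstep b).trans ?_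
    refine (ih (fun q hq => hL q (mem_insert_of_mem hq)) (fun q hq => hK0 q (mem_insert_of_mem hq))
      (fun q hq => hK q (mem_insert_of_mem hq)) l1 hl10).trans ?_
    apply Real.exp_le_exp.2
    apply mul_le_mul_of_nonneg_left _ (by positivity)
    rw [prod_insert hp, sum_insert hp]
    obtain ⟨hρ0, hρ1⟩ := rho_mem L fun q hq => hL q (mem_insert_of_mem hq)
    set ρ := ∏ p ∈ L, (1 - 1 / (p : ℝ)) with hρ
    set H := ∑ p ∈ L, K p / (p : ℝ) with hH
    have hH0 : 0 ≤ H := sum_nonneg fun q hq => div_nonneg (hK0 q (mem_insert_of_mem hq)).le (Nat.cast_nonneg _)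
    have h4 : l1 ^ 2 ≤ l ^ 2 := by gcongr
    have h5 : 0 ≤ l ^ 2 * (K p / (p : ℝ)) := by positivity
    have h6 : l ^ 2 * (K p / p) * ρ ≤ l ^ 2 * (K p / p) := mul_le_of_le_one_right h5 hρ1
    have h7 : l1 ^ 2 * H ≤ l ^ 2 * H := mul_le_mul_of_nonneg_right h4 hH0
    have h8 : l1 * ρ ≤ (l * (1 - 1 / p) + l ^ 2 * (K p / p)) * ρ := mul_le_mul_of_nonneg_right hl1u hρ0
    calc l1 * ρ + l1 ^ 2 * H ≤ (l * (1 - 1 / p) + l ^ 2 * (K p / p)) * ρ + l ^ 2 * H := add_le_add h8 h7
      _ = l * ((1 - 1 / p) * ρ) + l ^ 2 * (K p / p) * ρ + l ^ 2 * H := by ring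
      _ ≤ l * ((1 - 1 / p) * ρ) + l ^ 2 * (K p / p + H) := by linarith

/-- the exponential function on a bounded interval -/
theorem exp_bdd (C x : ℝ) (hx : 0 ≤ x) (hxC : x ≤ C) : Real.exp x ≤ 1 + x + x ^ 2 * Real.exp C := by
  -- `exp x - 1 - x ≤ x ^ 2 exp x`
  have h1 : Real.exp x * (1 - x) ≤ 1 := by
    have h2 := Real.add_one_le_exp (-x)
    have h3 : Real.exp x * Real.exp (-x) = 1 := by rw [← Real.exp_add]; simp
    have h4 : Real.exp x * (1 - x) ≤ Real.exp x * Real.exp (-x) :=
      mul_le_mul_of_nonneg_left (by linarith) (Real.exp_pos _).le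
    linarith
  have h2 : Real.exp x ≤ Real.exp C := Real.exp_le_exp.2 hxC
  have h3 : Real.exp x ≤ 1 + x * Real.exp x := by linarith
  have h4 : x * Real.exp x ≤ x * (1 + x * Real.exp x) := mul_le_mul_of_nonneg_left h3 hx
  have h5 : x ^ 2 * Real.exp x ≤ x ^ 2 * Real.exp C := mul_le_mul_of_nonneg_left h2 (sq_nonneg x)
  nlinarith

/-- **Negative parameters.** -/
theorem mgf_neg (T L : Finset ℕ) (K : ℕ → ℝ) (hL : ∀ p ∈ L, p.Prime) (hK0 : ∀ p ∈ L, 0 < K p)
    (hK : ∀ p ∈ L, ∀ r, ((T.filter fun t => t % p = r).card : ℝ) ≤ K p) (C : ℝ)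
    (hLC : ∀ p ∈ L, 1 + C * Real.exp C ≤ p) (l : ℝ) (hl : 0 ≤ l) (hlC : ∀ p ∈ L, l * K p ≤ C) :
    Ev L (fun b => Real.exp (-l * (Sw T L b).card)) ≤
      Real.exp (T.card * (-l * ∏ p ∈ L, (1 - 1 / (p : ℝ)) + l ^ 2 * Real.exp C * ∑ p ∈ L, K p / p)) := by
  classical
  induction L using Finset.induction_on generalizing l with
  | empty => simp [Ev_empty, Sw_empty, mul_comm]
  | insert p L hp ih =>
    have hpp := hL p (mem_insert_self _ _)
    have hp2 : (2 : ℝ) ≤ p := by exact_mod_cast hpp.two_le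
    have hp0 : (0 : ℝ) < p := by linarith
    have hKp0 := hK0 p (mem_insert_self _ _)
    have hCe := Real.exp_pos C
    set l1 := l - (Real.exp (l * K p) - 1) / (p * K p) with hl1
    have hstep : ∀ b, (1 / (p : ℝ)) * ∑ r ∈ range p, Real.exp (-l * (Sw T (insert p L) (Function.update b p r)).card) ≤
        Real.exp (-l1 * (Sw T L b).card) := fun b =>
      step_gen T L p hp hpp (K p) hKp0 (hK p (mem_insert_self _ _)) l b
    have hx : 0 ≤ l * K p := mul_nonneg hl hKp0.le
    have hxC := hlC p (mem_insert_self _ _)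
    have he1 : 1 ≤ Real.exp (l * K p) := Real.one_le_exp hx
    have he2 := exp_bdd C (l * K p) hx hxC
    have hl1l : l1 ≤ l := by
      rw [hl1]
      have : 0 ≤ (Real.exp (l * K p) - 1) / (p * K p) := div_nonneg (by linarith) (by positivity)
      linarith
    have hl1u : l * (1 - 1 / p) - l ^ 2 * Real.exp C * (K p / p) ≤ l1 := by
      rw [hl1]
      have h5 : (Real.exp (l * K p) - 1) / (p * K p) ≤ (l * K p + (l * K p) ^ 2 * Real.exp C) / (p * K p) :=
        div_le_div_of_nonneg_right (by linarith) (by positivity)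
      have e : (l * K p + (l * K p) ^ 2 * Real.exp C) / (p * K p) = l * (1 / p) + l ^ 2 * Real.exp C * (K p / p) := by
        field_simp
      rw [e] at h5
      linarith
    have hl10 : 0 ≤ l1 := by
      refine le_trans ?_ hl1u
      have h6 := hLC p (mem_insert_self _ _)
      have e : l * (1 - 1 / p) - l ^ 2 * Real.exp C * (K p / p) = l * (1 - (1 + l * K p * Real.exp C) / p) := by
        field_simp
        ring
      rw [e]
      apply mul_nonneg hl
      have h7 : (1 + l * K p * Real.exp C) / p ≤ 1 := by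
        rw [div_le_one hp0]
        have : l * K p * Real.exp C ≤ C * Real.exp C := mul_le_mul_of_nonneg_right hxC hCe.le
        linarith
      linarith
    rw [Ev_insert L p hp]
    refine (Ev_mono L _ _ fun b _ => hstep b).trans ?_
    refine (ih (fun q hq => hL q (mem_insert_of_mem hq)) (fun q hq => hK0 q (mem_insert_of_mem hq))
      (fun q hq => hK q (mem_insert_of_mem hq)) (fun q hq => hLC q (mem_insert_of_mem hq)) l1 hl10
      (fun q hq => (mul_le_mul_of_nonneg_right hl1l (hK0 q (mem_insert_of_mem hq)).le).trans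
        (hlC q (mem_insert_of_mem hq)))).trans ?_
    apply Real.exp_le_exp.2
    apply mul_le_mul_of_nonneg_left _ (by positivity)
    rw [prod_insert hp, sum_insert hp]
    obtain ⟨hρ0, hρ1⟩ := rho_mem L fun q hq => hL q (mem_insert_of_mem hq)
    set ρ := ∏ p ∈ L, (1 - 1 / (p : ℝ)) with hρ
    set H := ∑ p ∈ L, K p / (p : ℝ) with hH
    have hH0 : 0 ≤ H := sum_nonneg fun q hq => div_nonneg (hK0 q (mem_insert_of_mem hq)).le (Nat.cast_nonneg _)
    have h4 : l1 ^ 2 ≤ l ^ 2 := by gcongr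
    have h5 : 0 ≤ l ^ 2 * Real.exp C * (K p / (p : ℝ)) := by positivity
    have h6 : l ^ 2 * Real.exp C * (K p / p) * ρ ≤ l ^ 2 * Real.exp C * (K p / p) := mul_le_of_le_one_right h5 hρ1
    have h7 : l1 ^ 2 * Real.exp C * H ≤ l ^ 2 * Real.exp C * H := by gcongr
    have h8 : (l * (1 - 1 / p) - l ^ 2 * Real.exp C * (K p / p)) * ρ ≤ l1 * ρ := mul_le_mul_of_nonneg_right hl1u hρ0
    calc -l1 * ρ + l1 ^ 2 * Real.exp C * H
        ≤ -((l * (1 - 1 / p) - l ^ 2 * Real.exp C * (K p / p)) * ρ) + l ^ 2 * Real.exp C * H := by linarith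
      _ = -l * ((1 - 1 / p) * ρ) + l ^ 2 * Real.exp C * (K p / p) * ρ + l ^ 2 * Real.exp C * H := by ring
      _ ≤ -l * ((1 - 1 / p) * ρ) + l ^ 2 * Real.exp C * (K p / p + H) := by linarith

section prob

variable {Ω : Type} [MeasurableSpace Ω] {P : Measure Ω} {a : ℕ → Ω → ℕ}

/-- **Large deviations of the number of survivors.** -/
theorem conc (h : Model P a) (T L : Finset ℕ) (K : ℕ → ℝ) (hL : ∀ p ∈ L, p.Prime) (hK0 : ∀ p ∈ L, 0 < K p)
    (hK : ∀ p ∈ L, ∀ r, ((T.filter fun t => t % p = r).card : ℝ) ≤ K p) (C : ℝ) (hC : 0 ≤ C)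
    (hLC : ∀ p ∈ L, 1 + C * Real.exp C ≤ p) (l : ℝ) (hl : 0 ≤ l) (hlC : ∀ p ∈ L, l * K p ≤ C) (t : ℝ) :
    P.real {ω | t ≤ |((Sw T L fun q => a q ω).card : ℝ) - T.card * ∏ p ∈ L, (1 - 1 / (p : ℝ))|} ≤
      2 * Real.exp (T.card * (l ^ 2 * Real.exp C * ∑ p ∈ L, K p / p) - l * t) := by
  have hCe : 1 ≤ Real.exp C := Real.one_le_exp hC
  have hH0 : 0 ≤ ∑ p ∈ L, K p / (p : ℝ) := sum_nonneg fun q hq => div_nonneg (hK0 q hq).le (Nat.cast_nonneg _)
  refine chern h T L hL _ _ t l ?_ ?_ hl
  · refine (mgf_pos T L K hL hK0 hK l hl).trans (Real.exp_le_exp.2 ?_)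
    have h1 : l ^ 2 * ∑ p ∈ L, K p / (p : ℝ) ≤ l ^ 2 * Real.exp C * ∑ p ∈ L, K p / (p : ℝ) := by
      have : l ^ 2 * 1 ≤ l ^ 2 * Real.exp C := mul_le_mul_of_nonneg_left hCe (sq_nonneg l)
      rw [mul_one] at this
      exact mul_le_mul_of_nonneg_right this hH0
    have h2 := mul_le_mul_of_nonneg_left h1 (Nat.cast_nonneg (α := ℝ) T.card)
    linarith
  · refine (mgf_neg T L K hL hK0 hK C hLC l hl hlC).trans (Real.exp_le_exp.2 (le_of_eq ?_))
    ring

end prob

end Pool.Agent.H531.CP
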