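import Pool.Agent.H531.CP.Conc

set_option autoImplicit false

/-!
# Negative association of the occupancy probabilities and pairs of blocks
-/

open Finset MeasureTheory ProbabilityTheory Filter Topology

namespace Pool.Agent.H531.CP

open Pool.Agent.T2H31.HV Pool.Agent.H531.SI Pool.Agent.H531.MS
open Pool.Agent.T2H32.BF hiding PI

/-- **Submultiplicativity of the occupancy probabilities.** -/
theorem F_mul (q : ℕ → ℝ) (S n : ℕ) (h0 : ∀ k < n, 0 ≤ q k) (h1 : ∀ k < n, S * q k ≤ 1) :
    ∀ k ≤ n, ∀ s t, s + t ≤ S → F q k (s + t) ≤ F q k s * F q k t := by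
  intro k
  induction k with
  | zero =>
    intro _ s t _
    simp only [F]
    by_cases hs : s = 0
    · subst hs
      simp
    · rw [if_neg (by omega), if_neg hs]
      simp
  | succ k ih =>
    intro hk s t hst
    have ih' := ih (by omega)
    rcases Nat.eq_zero_or_pos s with h | h
    · subst h
      rw [zero_add, F_zero_right, one_mul]
    rcases Nat.eq_zero_or_pos t with h' | h'
    · subst h'
      rw [add_zero, F_zero_right, mul_one]
    have e1 := ih' s t hst
    have e2 := ih' (s - 1) t (by omega)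
    have e3 := ih' s (t - 1) (by omega)
    have a1 : F q k s ≤ F q k (s - 1) := by
      have := F_anti q S n h0 h1 k (by omega) (s - 1) (by omega)
      rwa [Nat.sub_add_cancel h] at this
    have a2 : F q k t ≤ F q k (t - 1) := by
      have := F_anti q S n h0 h1 k (by omega) (t - 1) (by omega)
      rwa [Nat.sub_add_cancel h'] at this
    have x0 := h0 k (by omega)
    have x1 := h1 k (by omega)
    have hstR : ((s : ℝ) + t) * q k ≤ 1 := by
      refine le_trans ?_ x1
      have : (s : ℝ) + t ≤ S := by exact_mod_cast hst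
      gcongr
    have hs1 : s - 1 + t = s + t - 1 := by omega
    have ht1 : s + (t - 1) = s + t - 1 := by omega
    rw [hs1] at e2
    rw [ht1] at e3
    simp only [F]
    set x := q k
    set A := F q k s
    set B := F q k t
    set A' := F q k (s - 1)
    set B' := F q k (t - 1)
    set M := F q k (s + t)
    set M' := F q k (s + t - 1)
    have hsR : (0 : ℝ) ≤ s := Nat.cast_nonneg s
    have htR : (0 : ℝ) ≤ t := Nat.cast_nonneg t
    have g1 : (1 - ((s : ℝ) + t) * x) * M ≤ (1 - ((s : ℝ) + t) * x) * (A * B) :=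
      mul_le_mul_of_nonneg_left e1 (by linarith)
    have g2 : (s : ℝ) * x * M' ≤ s * x * (A' * B) := mul_le_mul_of_nonneg_left e2 (by positivity)
    have g3 : (t : ℝ) * x * M' ≤ t * x * (A * B') := mul_le_mul_of_nonneg_left e3 (by positivity)
    have g4 : 0 ≤ (s : ℝ) * x * (t * x) * ((A' - A) * (B' - B)) :=
      mul_nonneg (by positivity) (mul_nonneg (by linarith) (by linarith))
    push_cast
    have e : ((1 - (s : ℝ) * x) * A + s * x * A') * ((1 - t * x) * B + t * x * B') =
        (1 - ((s : ℝ) + t) * x) * (A * B) + s * x * (A' * B) + t * x * (A * B') +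
          s * x * (t * x) * ((A' - A) * (B' - B)) := by ring
    rw [e]
    nlinarith

variable {Ω : Type} [MeasurableSpace Ω] {P : Measure Ω} {a : ℕ → Ω → ℕ}

theorem card_le_of_inj {U : Finset ℕ} {p : ℕ} (hp : 0 < p) (hU : Set.InjOn (fun u => u % p) U) : U.card ≤ p := by
  have h5 : (U.image (fun u => u % p)).card = U.card := card_image_of_injOn hU
  rw [← h5]
  conv_rhs => rw [← card_range p]
  refine card_le_card fun r hr => ?_
  rw [mem_image] at hr
  obtain ⟨u, _, rfl⟩ := hr
  exact mem_range.2 (Nat.mod_lt _ hp)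

/-- submultiplicativity, without coincidences -/
theorem Kill_mul (h : Model P a) (U U' L : Finset ℕ) (hL : ∀ p ∈ L, p.Prime) (hd : Disjoint U U')
    (hU : ∀ p ∈ L, Set.InjOn (fun u => u % p) (U ∪ U' : Finset ℕ)) :
    P.real (Kill a (U ∪ U') L) ≤ P.real (Kill a U L) * P.real (Kill a U' L) := by
  obtain ⟨pr, h1, h2, h3⟩ := exists_enum L
  have h4 := Kill_congr_card h pr L.card (fun k hk => hL _ (h2 k hk)) h1
  have e1 := h4 (U ∪ U') (fun k hk => hU _ (h2 k hk))
  have e2 := h4 U (fun k hk => (hU _ (h2 k hk)).mono (by exact_mod_cast subset_union_left))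
  have e3 := h4 U' (fun k hk => (hU _ (h2 k hk)).mono (by exact_mod_cast subset_union_right))
  rw [h3] at e1 e2 e3
  rw [e1, e2, e3, card_union_of_disjoint hd]
  have hpos : ∀ k < L.card, (0 : ℝ) < pr k := fun k hk => by
    exact_mod_cast (hL _ (h2 k hk)).pos
  refine F_mul _ (U.card + U'.card) L.card (fun k hk => by have := hpos k hk; positivity) (fun k hk => ?_)
    L.card le_rfl U.card U'.card le_rfl
  have h6 := hpos k hk
  rw [mul_one_div, div_le_one h6]
  have h7 := card_le_of_inj (hL _ (h2 k hk)).pos (hU _ (h2 k hk))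
  rw [card_union_of_disjoint hd] at h7
  exact_mod_cast h7

omit [MeasurableSpace Ω] in
theorem Kill_anti (a : ℕ → Ω → ℕ) (U U' L : Finset ℕ) (h : U' ⊆ U) : Kill a U L ⊆ Kill a U' L :=
  fun _ hω u hu => hω u (h hu)

/-- **Two blocks, with exceptional primes.** -/
theorem Kill_exc (h : Model P a) (T T' L1 L2 : Finset ℕ) (hL1 : ∀ p ∈ L1, p.Prime) (hL2 : ∀ p ∈ L2, p.Prime)
    (hd : Disjoint L1 L2) (hTT : Disjoint T T')
    (hU : ∀ p ∈ L1, Set.InjOn (fun u => u % p) (T ∪ T' : Finset ℕ))
    (hT : ∀ p ∈ L2, Set.InjOn (fun u => u % p) T) (hT' : ∀ p ∈ L2, Set.InjOn (fun u => u % p) T')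
    (hr : ∀ L', L1 ⊆ L' → L' ⊆ L1 ∪ L2 → ∀ U : Finset ℕ, (U ⊆ T ∨ U ⊆ T') → ∀ u ∈ U,
      P.real (Kill a (U.erase u) L') ≤ 2 * P.real (Kill a U L')) :
    ∀ U ⊆ T, ∀ U' ⊆ T', P.real (Kill a (U ∪ U') (L1 ∪ L2)) ≤
      (∏ p ∈ L2, (1 + (T.card : ℝ) / p)) * (P.real (Kill a U (L1 ∪ L2)) * P.real (Kill a U' (L1 ∪ L2))) := by
  have := prob h
  induction L2 using Finset.induction_on with
  | empty =>
    intro U hUT U' hUT'
    rw [union_empty, prod_empty, one_mul]
    exact Kill_mul h U U' L1 hL1 (disjoint_of_subset_left hUT (disjoint_of_subset_right hUT' hTT))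
      fun p hp => (hU p hp).mono (by exact_mod_cast union_subset_union hUT hUT')
  | insert p L2 hp ih =>
    intro U hUT U' hUT'
    have hpp : p.Prime := hL2 p (mem_insert_self _ _)
    have hp0 : (0 : ℝ) < p := by exact_mod_cast hpp.pos
    have ih' := ih (fun q hq => hL2 q (mem_insert_of_mem hq)) (hd.mono_right (subset_insert _ _))
      (fun q hq => hT q (mem_insert_of_mem hq)) (fun q hq => hT' q (mem_insert_of_mem hq))
      (fun L' h1 h2 => hr L' h1 (h2.trans (union_subset_union (subset_refl _) (subset_insert _ _))))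
    have hpL : p ∉ L1 ∪ L2 := by
      rw [mem_union, not_or]
      exact ⟨fun h' => disjoint_left.1 hd h' (mem_insert_self _ _), hp⟩
    have hr' := hr (L1 ∪ L2) subset_union_left (union_subset_union (subset_refl _) (subset_insert _ _))
    rw [union_insert, Kill_insert h (U ∪ U') _ p hpp hpL, Kill_insert h U _ p hpp hpL,
      Kill_insert h U' _ p hpp hpL, prod_insert hp]
    set C := ∏ q ∈ L2, (1 + (T.card : ℝ) / q) with hC
    have hC0 : 0 ≤ C := prod_nonneg fun q _ => by positivity
    set f : ℕ → ℝ := fun r => P.real (Kill a (U.filter (fun u => u % p ≠ r)) (L1 ∪ L2)) with hf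
    set g : ℕ → ℝ := fun r => P.real (Kill a (U'.filter (fun u => u % p ≠ r)) (L1 ∪ L2)) with hg
    set F0 := P.real (Kill a U (L1 ∪ L2)) with hF0
    set G0 := P.real (Kill a U' (L1 ∪ L2)) with hG0
    have hF00 : 0 ≤ F0 := measureReal_nonneg
    have hG00 : 0 ≤ G0 := measureReal_nonneg
    have hstep : ∀ r ∈ range p, P.real (Kill a ((U ∪ U').filter (fun u => u % p ≠ r)) (L1 ∪ L2)) ≤
        C * (f r * g r) := by
      intro r _
      rw [filter_union]
      exact ih' _ ((filter_subset _ _).trans hUT) _ ((filter_subset _ _).trans hUT')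
    -- the values of `f` and `g`
    have hgen : ∀ (A : Finset ℕ), Set.InjOn (fun u => u % p) A → (A ⊆ T ∨ A ⊆ T') → ∀ r,
        P.real (Kill a A (L1 ∪ L2)) ≤ P.real (Kill a (A.filter (fun u => u % p ≠ r)) (L1 ∪ L2)) ∧
        (r ∉ A.image (fun u => u % p) →
          P.real (Kill a (A.filter (fun u => u % p ≠ r)) (L1 ∪ L2)) = P.real (Kill a A (L1 ∪ L2))) ∧
        P.real (Kill a (A.filter (fun u => u % p ≠ r)) (L1 ∪ L2)) ≤ 2 * P.real (Kill a A (L1 ∪ L2)) := by
      intro A hA hAT r
      refine ⟨measureReal_mono (Kill_anti a _ _ _ (filter_subset _ _)) (measure_ne_top _ _), ?_, ?_⟩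
      · intro hr0
        have : A.filter (fun u => u % p ≠ r) = A := by
          refine filter_true_of_mem fun u hu he => hr0 ?_
          rw [mem_image]
          exact ⟨u, hu, he⟩
        rw [this]
      · by_cases hr0 : r ∈ A.image (fun u => u % p)
        · rw [mem_image] at hr0
          obtain ⟨u, hu, hur⟩ := hr0
          have : A.filter (fun u => u % p ≠ r) = A.erase u := by
            ext x
            simp only [mem_filter, mem_erase]
            constructor
            · rintro ⟨hx, hne⟩
              refine ⟨?_, hx⟩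
              rintro rfl
              exact hne hur
            · rintro ⟨hne, hx⟩
              refine ⟨hx, fun he => hne ?_⟩
              exact hA (by exact_mod_cast hx) (by exact_mod_cast hu) (he.trans hur.symm)
          rw [this]
          exact hr' A hAT u hu
        · have : A.filter (fun u => u % p ≠ r) = A := by
            refine filter_true_of_mem fun u hu he => hr0 ?_
            rw [mem_image]
            exact ⟨u, hu, he⟩
          rw [this]
          have : 0 ≤ P.real (Kill a A (L1 ∪ L2)) := measureReal_nonneg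
          linarith
    have hfU := hgen U ((hT p (mem_insert_self _ _)).mono (by exact_mod_cast hUT)) (Or.inl hUT)
    have hgU := hgen U' ((hT' p (mem_insert_self _ _)).mono (by exact_mod_cast hUT')) (Or.inr hUT')
    -- the covariance
    have hcov : (1 / (p : ℝ)) * ∑ r ∈ range p, f r * g r ≤
        (1 + (T.card : ℝ) / p) * (((1 / (p : ℝ)) * ∑ r ∈ range p, f r) * ((1 / (p : ℝ)) * ∑ r ∈ range p, g r)) := by
      set f1 : ℕ → ℝ := fun r => f r - F0 with hf1
      set g1 : ℕ → ℝ := fun r => g r - G0 with hg1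
      have hf10 : ∀ r, 0 ≤ f1 r := fun r => by have := (hfU r).1; simp only [hf1, hf]; linarith
      have hg10 : ∀ r, 0 ≤ g1 r := fun r => by have := (hgU r).1; simp only [hg1, hg]; linarith
      have hg1u : ∀ r, g1 r ≤ G0 := fun r => by have := (hgU r).2.2; simp only [hg1, hg]; linarith
      have hf1u : ∀ r, f1 r ≤ if r ∈ U.image (fun u => u % p) then F0 else 0 := by
        intro r
        split_ifs with h1
        · have := (hfU r).2.2
          simp only [hf1, hf]
          linarith
        · have := (hfU r).2.1 h1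
          simp only [hf1, hf]
          linarith
      have hprod : ∑ r ∈ range p, f1 r * g1 r ≤ T.card * (F0 * G0) := by
        calc ∑ r ∈ range p, f1 r * g1 r ≤ ∑ r ∈ range p, (if r ∈ U.image (fun u => u % p) then F0 * G0 else 0) := by
              refine sum_le_sum fun r _ => ?_
              have h1 := hf1u r
              have h2 : f1 r * g1 r ≤ f1 r * G0 := mul_le_mul_of_nonneg_left (hg1u r) (hf10 r)
              refine h2.trans ?_
              split_ifs with h3
              · rw [if_pos h3] at h1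
                exact mul_le_mul_of_nonneg_right h1 hG00
              · rw [if_neg h3] at h1
                nlinarith [hf10 r]
          _ = (((range p).filter fun r => r ∈ U.image (fun u => u % p)).card : ℝ) * (F0 * G0) := by
              rw [← sum_filter, sum_const, nsmul_eq_mul]
          _ ≤ T.card * (F0 * G0) := by
              apply mul_le_mul_of_nonneg_right _ (mul_nonneg hF00 hG00)
              have h1 : ((range p).filter fun r => r ∈ U.image (fun u => u % p)).card ≤ T.card :=
                (card_le_card (fun r hr => (mem_filter.1 hr).2)).trans (card_image_le.trans (card_le_card hUT))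
              exact_mod_cast h1
      have hsf : ∑ r ∈ range p, f r = p * F0 + ∑ r ∈ range p, f1 r := by
        simp only [hf1, sum_sub_distrib, sum_const, card_range, nsmul_eq_mul]
        ring
      have hsg : ∑ r ∈ range p, g r = p * G0 + ∑ r ∈ range p, g1 r := by
        simp only [hg1, sum_sub_distrib, sum_const, card_range, nsmul_eq_mul]
        ring
      have hsfg : ∑ r ∈ range p, f r * g r =
          p * (F0 * G0) + F0 * ∑ r ∈ range p, g1 r + G0 * ∑ r ∈ range p, f1 r + ∑ r ∈ range p, f1 r * g1 r := by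
        have e : ∀ r ∈ range p, f r * g r = F0 * G0 + F0 * g1 r + G0 * f1 r + f1 r * g1 r := by
          intro r _
          simp only [hf1, hg1]
          ring
        have e2 : ∑ r ∈ range p, G0 * f1 r = G0 * ∑ r ∈ range p, f1 r := (mul_sum _ _ _).symm
        have e3 : ∑ r ∈ range p, F0 * g1 r = F0 * ∑ r ∈ range p, g1 r := (mul_sum _ _ _).symm
        rw [sum_congr rfl e, sum_add_distrib, sum_add_distrib, sum_add_distrib, e2, e3,
          sum_const, card_range, nsmul_eq_mul]
      have hSf : 0 ≤ ∑ r ∈ range p, f1 r := sum_nonneg fun r _ => hf10 r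
      have hSg : 0 ≤ ∑ r ∈ range p, g1 r := sum_nonneg fun r _ => hg10 r
      rw [hsf, hsg, hsfg]
      set x := ∑ r ∈ range p, f1 r
      set y := ∑ r ∈ range p, g1 r
      set z := ∑ r ∈ range p, f1 r * g1 r
      have hTc : (0 : ℝ) ≤ T.card := Nat.cast_nonneg _
      have e1 : (1 / (p : ℝ)) * (p * F0 + x) = F0 + x / p := by field_simp
      have e2 : (1 / (p : ℝ)) * (p * G0 + y) = G0 + y / p := by field_simp
      have e3 : (1 / (p : ℝ)) * (p * (F0 * G0) + F0 * y + G0 * x + z) = F0 * G0 + F0 * (y / p) + G0 * (x / p) + z / p := by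
        field_simp
      rw [e1, e2, e3]
      have hx : 0 ≤ x / p := by positivity
      have hy : 0 ≤ y / p := by positivity
      have hz : z / p ≤ T.card / p * (F0 * G0) := by
        rw [div_mul_eq_mul_div]
        exact div_le_div_of_nonneg_right hprod hp0.le
      have hTp : 0 ≤ (T.card : ℝ) / p := by positivity
      have e4 : (1 + (T.card : ℝ) / p) * ((F0 + x / p) * (G0 + y / p)) =
          F0 * G0 + F0 * (y / p) + G0 * (x / p) + T.card / p * (F0 * G0) +
          ((x / p) * (y / p) + T.card / p * (F0 * (y / p) + G0 * (x / p) + (x / p) * (y / p))) := by ring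
      rw [e4]
      have : 0 ≤ (x / p) * (y / p) + T.card / p * (F0 * (y / p) + G0 * (x / p) + (x / p) * (y / p)) := by positivity
      linarith
    calc (1 / (p : ℝ)) * ∑ r ∈ range p, P.real (Kill a ((U ∪ U').filter (fun u => u % p ≠ r)) (L1 ∪ L2))
        ≤ (1 / (p : ℝ)) * ∑ r ∈ range p, C * (f r * g r) :=
          mul_le_mul_of_nonneg_left (sum_le_sum hstep) (by positivity)
      _ = C * ((1 / (p : ℝ)) * ∑ r ∈ range p, f r * g r) := by
          rw [← mul_sum]
          ring
      _ ≤ C * ((1 + (T.card : ℝ) / p) * (((1 / (p : ℝ)) * ∑ r ∈ range p, f r) * ((1 / (p : ℝ)) * ∑ r ∈ range p, g r))) :=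
          mul_le_mul_of_nonneg_left hcov hC0
      _ = _ := by ring

/-- **Two blocks.** -/
theorem pair_bound (h : Model P a) (T T' L : Finset ℕ) (hL : ∀ p ∈ L, p.Prime)
    (hT : ∀ p ∈ L, Set.InjOn (fun u => u % p) T) (hT' : ∀ p ∈ L, Set.InjOn (fun u => u % p) T')
    (hd : Disjoint T T') (X : ℕ) (hX : ∀ u ∈ T ∪ T', u ≤ X) (Y : ℝ) (hY : 0 < Y)
    (hLY : ∀ p ∈ L, Y ≤ p) (s : ℕ) (hs : T.card ≤ s) (hs' : T'.card ≤ s) (v d : ℝ)
    (hv : v = ∏ p ∈ L, (1 - 1 / (p : ℝ)))
    (hlow : ∀ L' ⊆ L, (L \ L').card ≤ s ^ 2 * Nat.log 2 X → ∀ U : Finset ℕ, U.card ≤ s →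
      (∀ p ∈ L', Set.InjOn (fun u => u % p) U) → (1 - d) ^ U.card ≤ P.real (Kill a U L'))
    (hrat : ∀ n < s, (1 - v) ^ n ≤ 2 * (1 - d) ^ (n + 1)) :
    P.real (Kill a T L ∩ Kill a T' L) ≤ Real.exp (s ^ 3 * Nat.log 2 X / Y) *
      (P.real (Kill a T L) * P.real (Kill a T' L)) := by
  have := prob h
  rw [Kill_union]
  set L2 := L.filter (fun p => ∃ u ∈ T, ∃ u' ∈ T', u % p = u' % p) with hL2
  set L1 := L \ L2 with hL1
  have hLL : L = L1 ∪ L2 := by
    rw [hL1, sdiff_union_of_subset (filter_subset _ _)]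
  have hdis : Disjoint L1 L2 := sdiff_disjoint
  have hcardL2 : L2.card ≤ s ^ 2 * Nat.log 2 X := by
    have h1 : L2 ⊆ (T ×ˢ T').biUnion (fun z => L.filter (fun p => z.1 % p = z.2 % p)) := by
      intro p hp
      rw [hL2, mem_filter] at hp
      obtain ⟨hp1, u, hu, u', hu', he⟩ := hp
      rw [mem_biUnion]
      exact ⟨(u, u'), mem_product.2 ⟨hu, hu'⟩, mem_filter.2 ⟨hp1, he⟩⟩
    refine (card_le_card h1).trans (card_biUnion_le.trans ?_)
    calc ∑ z ∈ T ×ˢ T', (L.filter (fun p => z.1 % p = z.2 % p)).card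
        ≤ ∑ z ∈ T ×ˢ T', Nat.log 2 X := by
          refine sum_le_sum fun z hz => ?_
          rw [mem_product] at hz
          refine card_dvd_diff L hL z.1 z.2 X ?_ (hX _ (mem_union_left _ hz.1)) (hX _ (mem_union_right _ hz.2))
          intro he
          exact disjoint_left.1 hd hz.1 (he ▸ hz.2)
      _ = T.card * T'.card * Nat.log 2 X := by
          rw [sum_const, card_product, smul_eq_mul]
      _ ≤ s ^ 2 * Nat.log 2 X := by
          rw [sq]
          gcongr
  have hinj1 : ∀ p ∈ L1, Set.InjOn (fun u => u % p) (T ∪ T' : Finset ℕ) := by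
    intro p hp u hu u' hu' he
    rw [hL1, Finset.mem_sdiff] at hp
    rw [coe_union] at hu hu'
    have hnot : ∀ u ∈ T, ∀ u' ∈ T', u % p ≠ u' % p := by
      intro u hu u' hu' he
      exact hp.2 (mem_filter.2 ⟨hp.1, u, hu, u', hu', he⟩)
    rcases hu with hu | hu <;> rcases hu' with hu' | hu'
    · exact hT p hp.1 hu hu' he
    · exact absurd he (hnot u (by exact_mod_cast hu) u' (by exact_mod_cast hu'))
    · exact absurd he.symm (hnot u' (by exact_mod_cast hu') u (by exact_mod_cast hu))
    · exact hT' p hp.1 hu hu' he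
  have hkey := Kill_exc h T T' L1 L2 (fun p hp => hL p (Finset.mem_sdiff.1 hp).1) (fun p hp => hL p (mem_filter.1 hp).1)
    hdis hd hinj1 (fun p hp => hT p (mem_filter.1 hp).1) (fun p hp => hT' p (mem_filter.1 hp).1) (by
      intro L' h1 h2 U hU u hu
      rw [← hLL] at h2
      have hUs : U.card ≤ s := by
        rcases hU with hU | hU
        · exact (card_le_card hU).trans hs
        · exact (card_le_card hU).trans hs'
      have hUinj : ∀ p ∈ L', Set.InjOn (fun u => u % p) U := by
        intro p hp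
        rcases hU with hU | hU
        · exact (hT p (h2 hp)).mono (by exact_mod_cast hU)
        · exact (hT' p (h2 hp)).mono (by exact_mod_cast hU)
      have hcard : (L \ L').card ≤ s ^ 2 * Nat.log 2 X := by
        refine (card_le_card ?_).trans hcardL2
        intro p hp
        rw [Finset.mem_sdiff] at hp
        by_contra h3
        exact hp.2 (h1 (by rw [hL1, Finset.mem_sdiff]; exact ⟨hp.1, h3⟩))
      have e1 := hlow L' h2 hcard U hUs hUinj
      have e2 := Kill_upper h (U.erase u) L' (fun p hp => hL p (h2 hp)) (fun p hp =>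
        (hUinj p hp).mono (by exact_mod_cast erase_subset _ _))
      have hUc : 0 < U.card := card_pos.2 ⟨u, hu⟩
      rw [card_erase_of_mem hu] at e2
      have e3 : v ≤ ∏ p ∈ L', (1 - 1 / (p : ℝ)) := by
        rw [hv]
        exact prod_anti hL h2
      have e4 : ∏ p ∈ L', (1 - 1 / (p : ℝ)) ≤ 1 := prod_le_one' fun q hq => hL q (h2 hq)
      have e5 : (1 - ∏ p ∈ L', (1 - 1 / (p : ℝ))) ^ (U.card - 1) ≤ (1 - v) ^ (U.card - 1) :=
        pow_le_pow_left₀ (by linarith) (by linarith) _
      have e6 := hrat (U.card - 1) (by omega)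
      rw [Nat.sub_add_cancel hUc] at e6
      linarith) T (subset_refl _) T' (subset_refl _)
  rw [← hLL] at hkey
  refine hkey.trans ?_
  refine mul_le_mul_of_nonneg_right ?_ (mul_nonneg measureReal_nonneg measureReal_nonneg)
  have h3 : ∀ p ∈ L2, 1 + (T.card : ℝ) / p ≤ Real.exp (s / Y) := by
    intro p hp
    have hpL := (mem_filter.1 hp).1
    have h5 : (T.card : ℝ) / p ≤ s / Y := by
      have := hLY p hpL
      have h6 : (T.card : ℝ) ≤ s := by exact_mod_cast hs
      gcongr
    have h6 := Real.add_one_le_exp ((s : ℝ) / Y)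
    linarith
  have h4 : ∏ p ∈ L2, (1 + (T.card : ℝ) / p) ≤ Real.exp (s / Y) ^ L2.card := by
    rw [← prod_const]
    exact prod_le_prod (fun p _ => add_nonneg zero_le_one (div_nonneg (Nat.cast_nonneg _) (Nat.cast_nonneg _))) h3
  calc ∏ p ∈ L2, (1 + (T.card : ℝ) / p) ≤ Real.exp (s / Y) ^ L2.card := h4
    _ ≤ Real.exp (s / Y) ^ (s ^ 2 * Nat.log 2 X) :=
        pow_le_pow_right₀ (Real.one_le_exp (div_nonneg (Nat.cast_nonneg _) hY.le)) hcardL2
    _ = Real.exp (s ^ 3 * Nat.log 2 X / Y) := by
        rw [← Real.exp_nat_mul]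
        congr 1
        rw [Nat.cast_mul, Nat.cast_pow]
        ring

end Pool.Agent.H531.CP
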