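import Pool.Agent.H531.CP.Zf

set_option autoImplicit false

/-!
# Both events at one scale
-/

open Finset MeasureTheory ProbabilityTheory Filter Topology

namespace Pool.Agent.H531.CP

open Pool.Agent.T2H31.HV Pool.Agent.H531.SI Pool.Agent.H531.MS
open Pool.Agent.T2H32.BF hiding PI

/-- the length of the long windows -/
noncomputable def yU (ε : ℝ) (k w : ℕ) : ℕ := ⌈(1 + ε) * k ^ 2 * V w⌉₊

/-- the length of the short windows -/
noncomputable def yL (ε : ℝ) (k w : ℕ) : ℕ := ⌊(1 - ε) * k ^ 2 * V w⌋₊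

/-- the number of windows in one class -/
noncomputable def JJ (ε : ℝ) (k w : ℕ) : ℕ := E k / (4 * (primorial w * (yL ε k w + 1)))

/-- the bound for the number of survivors of the first phase -/
noncomputable def sk (ε : ℝ) (k : ℕ) : ℕ := ⌊(1 - ε / 2) * k ^ 2 * V (Yk k)⌋₊

/-- no long window is sieved out -/
def UpG (z : ℕ → ℕ) (ε κ : ℝ) (k : ℕ) (b : ℕ → ℕ) : Prop :=
  ∀ w : ℕ, κ * k ≤ w → w ≤ (1 - κ) * k → ∀ u ≤ E k,
    ∃ t ∈ Wd u (primorial w) (yU ε k w), ∀ p ∈ PI w (z (2 * E k)), t % p ≠ b p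

/-- some short window is sieved out -/
def LowG (z : ℕ → ℕ) (ε κ : ℝ) (k : ℕ) (b : ℕ → ℕ) : Prop :=
  ∀ w : ℕ, κ * k ≤ w → w ≤ (1 - κ) * k →
    ∃ i ∈ (Sw (range (primorial w)) (PN w) b) ×ˢ Ico (JJ ε k w) (2 * JJ ε k w),
      ∀ t ∈ Sw (Wd (pos (primorial w) (yL ε k w) i) (primorial w) (yL ε k w)) (PI w (Yk k)) b,
        ∃ p ∈ PI (Yk k) (z (E k / 8)), t % p = b p

theorem exp_beats (n : ℕ) (A c : ℝ) (hA : 0 < A) (hc : 0 < c) : ∀ᶠ k : ℕ in atTop,
    (k : ℝ) ^ n ≤ A * Real.exp (c * k) := by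
  have h1 := (isLittleO_pow_exp_pos_mul_atTop n hc).bound hA
  have h2 := (tendsto_natCast_atTop_atTop (R := ℝ)).eventually h1
  filter_upwards [h2] with k hk
  rw [Real.norm_eq_abs, Real.norm_eq_abs, abs_of_pos (Real.exp_pos _)] at hk
  exact (le_abs_self _).trans hk

theorem V_mul_ge : ∀ᶠ k : ℕ in atTop, ∀ w : ℕ, w ≤ k → (k : ℝ) ≤ k ^ 2 * V w := by
  filter_upwards [log_small (1 / 2) (by norm_num), V_ge_log, eventually_ge_atTop 2] with k h1 h2 h3
  intro w hw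
  have hk : (2 : ℝ) ≤ k := by exact_mod_cast h3
  have hl : 0 < Real.log k := Real.log_pos (by linarith)
  have h4 : V k ≤ V w := V_anti hw
  have h5 : (k : ℝ) ^ 2 * (1 / (2 * Real.log k)) ≤ k ^ 2 * V w :=
    mul_le_mul_of_nonneg_left (h2.trans h4) (by positivity)
  refine le_trans ?_ h5
  rw [mul_one_div, le_div_iff₀ (by positivity)]
  nlinarith

theorem yU_le (ε : ℝ) (hε : 0 < ε) (hε1 : ε ≤ 1) : ∀ᶠ k : ℕ in atTop, ∀ w : ℕ, w ≤ k →
    yU ε k w ≤ Yk k ∧ (yU ε k w : ℝ) ≤ (1 + ε) * k ^ 2 * V w + 1 := by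
  filter_upwards [eventually_ge_atTop 2] with k hk2
  intro w _
  have hk : (2 : ℝ) ≤ k := by exact_mod_cast hk2
  have hV := V_pos w
  have hV1 := V_le_one w
  have h1 : (yU ε k w : ℝ) ≤ (1 + ε) * k ^ 2 * V w + 1 := by
    unfold yU
    exact (Nat.ceil_lt_add_one (by positivity)).le
  refine ⟨?_, h1⟩
  have h2 : (1 + ε) * k ^ 2 * V w ≤ 2 * (k : ℝ) ^ 2 * 1 := by
    have : 1 + ε ≤ 2 := by linarith
    gcongr
  have h3 : (yU ε k w : ℝ) ≤ ((Yk k : ℕ) : ℝ) := by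
    refine h1.trans ?_
    unfold Yk
    push_cast
    have h4 : (k : ℝ) ^ 20 = (k : ℝ) ^ 2 * (k : ℝ) ^ 18 := by ring
    have h5 : (2 : ℝ) ^ 18 ≤ (k : ℝ) ^ 18 := by gcongr
    have h6 : (1 : ℝ) ≤ (k : ℝ) ^ 2 := one_le_pow₀ (by linarith)
    rw [h4]
    have h7 : (k : ℝ) ^ 2 * 2 ^ 18 ≤ (k : ℝ) ^ 2 * (k : ℝ) ^ 18 := mul_le_mul_of_nonneg_left h5 (by positivity)
    norm_num at h7
    linarith
  exact_mod_cast h3

theorem yL_bounds (ε : ℝ) (hε : 0 < ε) (hε1 : ε ≤ 1 / 2) : ∀ᶠ k : ℕ in atTop, ∀ w : ℕ, w ≤ k →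
    (1 / 4 * k ^ 2 * V w ≤ (yL ε k w : ℝ)) ∧ ((yL ε k w : ℝ) ≤ (1 - ε) * k ^ 2 * V w) ∧
      ((1 - ε) * k ^ 2 * V w ≤ (yL ε k w : ℝ) + 1) ∧ ((yL ε k w : ℝ) + 1 ≤ 2 * (k ^ 2 * V w)) ∧
      yL ε k w ≤ Yk k := by
  filter_upwards [V_mul_ge, eventually_ge_atTop 4] with k h1 h2
  intro w hw
  have hk : (4 : ℝ) ≤ k := by exact_mod_cast h2
  have h3 := h1 w hw
  have hV := V_pos w
  have hV1 := V_le_one w
  have h0 : 0 ≤ (1 - ε) * k ^ 2 * V w := by
    have : 0 ≤ 1 - ε := by linarith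
    positivity
  have h4 : (yL ε k w : ℝ) ≤ (1 - ε) * k ^ 2 * V w := Nat.floor_le h0
  have h5 : (1 - ε) * k ^ 2 * V w ≤ (yL ε k w : ℝ) + 1 := (Nat.lt_floor_add_one _).le
  have h6 : (1 - ε) * k ^ 2 * V w ≤ 1 * (k ^ 2 * V w) := by
    rw [mul_assoc]
    have : 0 ≤ (k : ℝ) ^ 2 * V w := by positivity
    gcongr
    linarith
  have h7 : 1 / 2 * (k ^ 2 * V w) ≤ (1 - ε) * k ^ 2 * V w := by
    rw [mul_assoc]
    have : 0 ≤ (k : ℝ) ^ 2 * V w := by positivity
    gcongr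
    linarith
  refine ⟨by linarith, h4, h5, by linarith, ?_⟩
  have h8 : (yL ε k w : ℝ) ≤ ((Yk k : ℕ) : ℝ) := by
    unfold Yk
    push_cast
    have h9 : (k : ℝ) ^ 2 * V w ≤ (k : ℝ) ^ 2 := mul_le_of_le_one_right (by positivity) hV1
    have h10 : (k : ℝ) ^ 2 ≤ (k : ℝ) ^ 20 := pow_le_pow_right₀ (by linarith) (by norm_num)
    linarith
  exact_mod_cast h8

/-- the sizes of the primorial and of the number of windows -/
theorem J_large (ε κ : ℝ) (hε : 0 < ε) (hε1 : ε ≤ 1 / 2) (hκ : 0 < κ) (hκ1 : κ < 1) : ∀ᶠ k : ℕ in atTop, ∀ w : ℕ,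
    κ * k ≤ w → w ≤ (1 - κ) * k →
      (8 * primorial w * k ^ 6 : ℝ) ≤ Real.exp k ∧ k ^ 3 ≤ JJ ε k w ∧
      E k ≤ 8 * (primorial w * (yL ε k w + 1) * JJ ε k w) ∧
      4 * (primorial w * (yL ε k w + 1) * JJ ε k w) ≤ E k := by
  obtain ⟨w0, hw0⟩ := eventually_atTop.1 (primorial_le (κ / 2) (by positivity))
  filter_upwards [yL_bounds ε hε hε1, exp_beats 6 (1 / 8) (κ / 2) (by norm_num) (by positivity),
    (tendsto_natCast_atTop_atTop (R := ℝ)).eventually_ge_atTop (w0 / κ), eventually_ge_atTop 4] with k h1 h2 h3 h4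
  intro w hkw hwk
  have hk : (4 : ℝ) ≤ k := by exact_mod_cast h4
  have hwk' : w ≤ k := by
    have : (w : ℝ) ≤ k := by
      refine hwk.trans ?_
      nlinarith
    exact_mod_cast this
  have hw0w : w0 ≤ w := by
    rw [div_le_iff₀ hκ] at h3
    have : (w0 : ℝ) ≤ w := by linarith
    exact_mod_cast this
  have h5 := hw0 w hw0w
  have h6 : (primorial w : ℝ) ≤ Real.exp ((1 - κ / 2) * k) := by
    refine h5.trans (Real.exp_le_exp.2 ?_)
    calc (1 + κ / 2) * (w : ℝ) ≤ (1 + κ / 2) * ((1 - κ) * k) := by gcongr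
      _ = (1 - κ / 2 - κ ^ 2 / 2) * k := by ring
      _ ≤ (1 - κ / 2) * k := by
        have : 0 ≤ κ ^ 2 / 2 := by positivity
        exact mul_le_mul_of_nonneg_right (by linarith) (by positivity)
  have h7 : (8 * primorial w * k ^ 6 : ℝ) ≤ Real.exp k := by
    calc (8 * primorial w * k ^ 6 : ℝ) ≤ 8 * Real.exp ((1 - κ / 2) * k) * (1 / 8 * Real.exp (κ / 2 * k)) := by gcongr
      _ = Real.exp ((1 - κ / 2) * k) * Real.exp (κ / 2 * k) := by ring
      _ = Real.exp k := by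
        rw [← Real.exp_add]
        congr 1
        ring
  refine ⟨h7, ?_⟩
  obtain ⟨-, -, -, h8, -⟩ := h1 w hwk'
  have hV1 := V_le_one w
  have hq := primorial_pos w
  have hq' : (0 : ℝ) < primorial w := by exact_mod_cast hq
  have h9 : (yL ε k w : ℝ) + 1 ≤ 2 * k ^ 2 := by
    refine h8.trans ?_
    have : (k : ℝ) ^ 2 * V w ≤ (k : ℝ) ^ 2 := mul_le_of_le_one_right (by positivity) hV1
    linarith
  have h10 : (4 * (primorial w * (yL ε k w + 1)) : ℝ) * k ^ 3 ≤ E k := by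
    refine le_trans ?_ (E_lower k)
    refine le_trans ?_ h7
    calc (4 * (primorial w * (yL ε k w + 1)) : ℝ) * (k : ℝ) ^ 3
        ≤ (4 * (primorial w * (2 * (k : ℝ) ^ 2)) : ℝ) * (k : ℝ) ^ 3 := by gcongr
      _ = 8 * (primorial w : ℝ) * (k : ℝ) ^ 5 := by ring
      _ ≤ 8 * (primorial w : ℝ) * (k : ℝ) ^ 6 := by
        have : (k : ℝ) ^ 5 ≤ (k : ℝ) ^ 6 := pow_le_pow_right₀ (by linarith) (by norm_num)
        gcongr
  have h11 : 4 * (primorial w * (yL ε k w + 1)) * k ^ 3 ≤ E k := by exact_mod_cast h10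
  set D := 4 * (primorial w * (yL ε k w + 1)) with hD
  have hD0 : 0 < D := by positivity
  have h12 : k ^ 3 ≤ JJ ε k w := by
    unfold JJ
    rw [← hD, Nat.le_div_iff_mul_le hD0, mul_comm]
    exact h11
  refine ⟨h12, ?_, ?_⟩
  · have h13 : E k < D * (JJ ε k w + 1) := by
      unfold JJ
      rw [← hD]
      exact Nat.lt_mul_div_succ (E k) hD0
    have h14 : 1 ≤ JJ ε k w := by
      have : 1 ≤ k ^ 3 := Nat.one_le_pow _ _ (by omega)
      omega
    have h15 : D * (JJ ε k w + 1) ≤ D * (2 * JJ ε k w) := Nat.mul_le_mul_left _ (by omega)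
    have e : D * (2 * JJ ε k w) = 8 * (primorial w * (yL ε k w + 1) * JJ ε k w) := by
      rw [hD]
      ring
    omega
  · have h13 : D * JJ ε k w ≤ E k := by
      unfold JJ
      rw [← hD]
      exact Nat.mul_div_le (E k) D
    have e : D * JJ ε k w = 4 * (primorial w * (yL ε k w + 1) * JJ ε k w) := by
      rw [hD]
      ring
    omega

section prob

variable {Ω : Type} [MeasurableSpace Ω] {P : Measure Ω} {a : ℕ → Ω → ℕ}

open Classical in
theorem up_prob (h : Model P a) (z : ℕ → ℕ) (hzV : Tendsto (fun n => V (z n) * Real.log n) atTop (𝓝 1))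
    (ε κ : ℝ) (hε : 0 < ε) (hε1 : ε ≤ 1) (hκ : 0 < κ) :
    ∀ᶠ k : ℕ in atTop, P.real {ω | ¬ UpG z ε κ k fun p => a p ω} ≤ 1 / (k : ℝ) ^ 2 := by
  have := prob h
  filter_upwards [up_win h ε κ hε hε1 hκ, V_scl z hzV Scl_two (ε / 8) (by positivity), Y_le_z z hzV Scl_two,
    yU_le ε hε hε1, exp_beats 3 (1 / 20) (ε / 2) (by norm_num) (by positivity), eventually_ge_atTop 1]
    with k h1 h2 h3 h4 h5 h6
  have hk : (1 : ℝ) ≤ k := by exact_mod_cast h6
  set S := (range (k + 1)).filter fun w : ℕ => κ * k ≤ w ∧ (w : ℝ) ≤ (1 - κ) * k with hS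
  have hsub : {ω | ¬ UpG z ε κ k fun p => a p ω} ⊆ ⋃ w ∈ S, ⋃ u ∈ range (E k + 1),
      Kill a (Wd u (primorial w) (yU ε k w)) (PI w (z (2 * E k))) := by
    intro ω hω
    have hω : ¬ UpG z ε κ k fun p => a p ω := hω
    unfold UpG at hω
    push Not at hω
    obtain ⟨w, hw1, hw2, u, hu, h7⟩ := hω
    simp only [Set.mem_iUnion, exists_prop]
    refine ⟨w, ?_, u, by rw [mem_range]; omega, fun t ht => h7 t ht⟩
    rw [hS, mem_filter, mem_range]
    refine ⟨?_, hw1, hw2⟩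
    have : (w : ℝ) ≤ k := by
      refine hw2.trans ?_
      nlinarith
    have : w ≤ k := by exact_mod_cast this
    omega
  have hone : ∀ w ∈ S, ∀ u ∈ range (E k + 1),
      P.real (Kill a (Wd u (primorial w) (yU ε k w)) (PI w (z (2 * E k)))) ≤ 3 * Real.exp (-((1 + ε / 2) * k)) := by
    intro w hw u _
    rw [hS, mem_filter, mem_range] at hw
    refine h1 w (yU ε k w) u (z (2 * E k)) hw.2.1 (by omega) (Nat.le_ceil _) (h4 w (by omega)).1 h3 ?_
    exact h2.1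
  refine (measureReal_mono hsub (measure_ne_top _ _)).trans ?_
  refine (measureReal_biUnion_finset_le _ _).trans ?_
  calc ∑ w ∈ S, P.real (⋃ u ∈ range (E k + 1), Kill a (Wd u (primorial w) (yU ε k w)) (PI w (z (2 * E k))))
      ≤ ∑ w ∈ S, ∑ u ∈ range (E k + 1), 3 * Real.exp (-((1 + ε / 2) * k)) :=
        sum_le_sum fun w hw => (measureReal_biUnion_finset_le _ _).trans (sum_le_sum fun u hu => hone w hw u hu)
    _ = S.card * ((E k + 1) * (3 * Real.exp (-((1 + ε / 2) * k)))) := by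
        rw [sum_const, sum_const, card_range, nsmul_eq_mul, nsmul_eq_mul]
        push_cast
        ring
    _ ≤ (2 * k) * ((3 * Real.exp k) * (3 * Real.exp (-((1 + ε / 2) * k)))) := by
        have e1 : (S.card : ℝ) ≤ 2 * k := by
          have h7 : S.card ≤ k + 1 := by
            have := card_filter_le (range (k + 1)) fun w : ℕ => κ * k ≤ w ∧ (w : ℝ) ≤ (1 - κ) * k
            rwa [card_range] at this
          have h8 : (S.card : ℝ) ≤ k + 1 := by exact_mod_cast h7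
          linarith
        have e2 : (E k : ℝ) + 1 ≤ 3 * Real.exp k := by
          have := E_upper k
          have := Real.one_le_exp (Nat.cast_nonneg (α := ℝ) k)
          linarith
        gcongr
    _ = 18 * k * Real.exp (-(ε / 2 * k)) := by
        have e : Real.exp k * Real.exp (-((1 + ε / 2) * k)) = Real.exp (-(ε / 2 * k)) := by
          rw [← Real.exp_add]
          congr 1
          ring
        rw [← e]
        ring
    _ ≤ 1 / (k : ℝ) ^ 2 := by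
        rw [le_div_iff₀ (by positivity), Real.exp_neg]
        have h7 : 18 * (k : ℝ) * (Real.exp (ε / 2 * k))⁻¹ * k ^ 2 = 18 * k ^ 3 * (Real.exp (ε / 2 * k))⁻¹ := by ring
        rw [h7, ← div_eq_mul_inv, div_le_one (Real.exp_pos _)]
        have := Real.exp_pos (ε / 2 * k)
        linarith

end prob

end Pool.Agent.H531.CP
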