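import Pool.Agent.H531.CP.Scale

set_option autoImplicit false

/-!
# The short windows at one scale
-/

open Finset MeasureTheory ProbabilityTheory Filter Topology

namespace Pool.Agent.H531.CP

open Pool.Agent.T2H31.HV Pool.Agent.H531.SI Pool.Agent.H531.MS
open Pool.Agent.T2H32.BF hiding PI

/-- the parameters -/
theorem par_ev (z : ℕ → ℕ) (hzV : Tendsto (fun n => V (z n) * Real.log n) atTop (𝓝 1)) (hzt : Tendsto z atTop atTop)
    (ε : ℝ) (hε : 0 < ε) (hε1 : ε ≤ 1 / 2) : ∀ᶠ k : ℕ in atTop, Par k (z (E k / 8)) (sk ε k) := by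
  have hY : Tendsto Yk atTop atTop := by
    unfold Yk
    exact tendsto_pow_atTop (by norm_num)
  have hlog2 : ∀ᶠ k : ℕ in atTop, Real.log k ^ 2 ≤ 1 / 40000 * k := by
    have h1 := (isLittleO_log_rpow_atTop (show (0 : ℝ) < 1 / 2 by norm_num)).bound (show (0 : ℝ) < 1 / 200 by norm_num)
    have h2 := (tendsto_natCast_atTop_atTop (R := ℝ)).eventually h1
    filter_upwards [h2, eventually_ge_atTop 2] with k hk hk2
    have hk' : (2 : ℝ) ≤ k := by exact_mod_cast hk2
    have hl : 0 ≤ Real.log k := Real.log_nonneg (by linarith)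
    rw [Real.norm_eq_abs, Real.norm_eq_abs, abs_of_nonneg hl, abs_of_nonneg (by positivity)] at hk
    calc Real.log k ^ 2 ≤ (1 / 200 * (k : ℝ) ^ (1 / 2 : ℝ)) ^ 2 := by gcongr
      _ = 1 / 40000 * ((k : ℝ) ^ (1 / 2 : ℝ)) ^ 2 := by ring
      _ = 1 / 40000 * k := by
        rw [← Real.rpow_natCast, ← Real.rpow_mul (by linarith)]
        norm_num
  filter_upwards [Y_le_z z hzV Scl_eighth, log_z_le z hzV Scl_eighth hzt, V_scl z hzV Scl_eighth (1 / 2) (by norm_num),
    hY.eventually V_ge_log, hlog2, eventually_ge_atTop 2] with k h1 h2 h3 h4 h5 h6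
  have hk : (2 : ℝ) ≤ k := by exact_mod_cast h6
  have hl : 0 < Real.log k := Real.log_pos (by linarith)
  have hYl : Real.log (Yk k) = 20 * Real.log k := by
    unfold Yk
    push_cast
    rw [Real.log_pow]
    norm_num
  rw [hYl] at h4
  have hVY := V_pos (Yk k)
  have hVY1 := V_le_one (Yk k)
  have hs0 : 0 ≤ (1 - ε / 2) * (k : ℝ) ^ 2 * V (Yk k) := by
    have : 0 ≤ 1 - ε / 2 := by linarith
    positivity
  have hsu : (sk ε k : ℝ) ≤ (1 - ε / 2) * k ^ 2 * V (Yk k) := Nat.floor_le hs0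
  have hsl : (1 - ε / 2) * k ^ 2 * V (Yk k) ≤ (sk ε k : ℝ) + 1 := (Nat.lt_floor_add_one _).le
  have hs1 : (sk ε k : ℝ) ≤ 1 * (k ^ 2 * V (Yk k)) := by
    refine hsu.trans ?_
    rw [mul_assoc]
    have : 0 ≤ (k : ℝ) ^ 2 * V (Yk k) := by positivity
    gcongr
    linarith
  refine ⟨h1, h2, ?_, ?_, ?_, ?_, ?_⟩
  · refine le_trans (le_of_eq ?_) h3.1
    field_simp
    norm_num
  · refine h3.2.trans ?_
    gcongr
    norm_num
  · -- the lower bound
    have h7 : 1 / 2 * (k ^ 2 * (1 / (2 * (20 * Real.log k)))) ≤ (1 - ε / 2) * k ^ 2 * V (Yk k) := by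
      rw [mul_assoc (1 - ε / 2)]
      have : (k : ℝ) ^ 2 * (1 / (2 * (20 * Real.log k))) ≤ (k : ℝ) ^ 2 * V (Yk k) := by gcongr
      have h8 : 0 ≤ (k : ℝ) ^ 2 * (1 / (2 * (20 * Real.log k))) := by positivity
      nlinarith
    have h8 : 400 * k * Real.log k + 1 ≤ 1 / 2 * (k ^ 2 * (1 / (2 * (20 * Real.log k)))) := by
      have e : 1 / 2 * ((k : ℝ) ^ 2 * (1 / (2 * (20 * Real.log k)))) = k ^ 2 / (80 * Real.log k) := by
        field_simp
        norm_num
      rw [e, le_div_iff₀ (by positivity)]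
      have h9 : Real.log k ≤ k := (Real.log_le_sub_one_of_pos (by linarith)).trans (by linarith)
      have h10 : (400 * k * Real.log k + 1) * (80 * Real.log k) = 32000 * k * Real.log k ^ 2 + 80 * Real.log k := by ring
      rw [h10]
      have h11 : 32000 * (k : ℝ) * Real.log k ^ 2 ≤ 32000 * k * (1 / 40000 * k) := by gcongr
      have h12 : 80 * Real.log k ≤ 1 / 5 * (k : ℝ) ^ 2 := by
        -- `log k ≤ k / 400`
        have h13 : (Real.log k) ^ 2 ≤ 1 / 40000 * k := h5
        have hk4 : (40000 : ℝ) * Real.log k ^ 2 ≤ k := by linarith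
        have hl2 : Real.log 2 ≤ Real.log k := Real.log_le_log (by norm_num) hk
        have := Real.log_two_gt_d9
        have hl05 : (1 / 2 : ℝ) ≤ Real.log k := by linarith
        have h14 : 20000 * Real.log k ≤ k := by nlinarith
        nlinarith
      nlinarith
    linarith
  · linarith [mul_nonneg (sq_nonneg (k : ℝ)) hVY.le]
  · have h7 : (sk ε k : ℝ) ≤ (k : ℝ) ^ 2 := by
      have : (k : ℝ) ^ 2 * V (Yk k) ≤ (k : ℝ) ^ 2 := mul_le_of_le_one_right (by positivity) hVY1
      linarith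
    exact_mod_cast h7

section prob

variable {Ω : Type} [MeasurableSpace Ω] {P : Measure Ω} {a : ℕ → Ω → ℕ}

open Classical in
theorem low_prob (h : Model P a) (z : ℕ → ℕ) (hzV : Tendsto (fun n => V (z n) * Real.log n) atTop (𝓝 1))
    (hzt : Tendsto z atTop atTop) (ε κ : ℝ) (hε : 0 < ε) (hε1 : ε ≤ 1 / 2) (hκ : 0 < κ) (hκ1 : κ < 1) :
    ∀ᶠ k : ℕ in atTop, P.real {ω | ¬ LowG z ε κ k fun p => a p ω} ≤ 1 / (k : ℝ) ^ 2 := by
  have := prob h
  filter_upwards [par_ev z hzV hzt ε hε hε1, sec_win h, yL_bounds ε hε hε1, J_large ε κ hε hε1 hκ hκ1,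
    conc_win h (ε / 2) κ (1 / 4) (by positivity) hκ (by norm_num), low_exp (ε / 8) (by positivity),
    V_scl z hzV Scl_eighth (ε / 8) (by positivity), exp_beats 5 (1 / 1000) (ε / 8) (by norm_num) (by positivity),
    exp_beats 3 (1 / 1000) 2 (by norm_num) (by norm_num), eventually_ge_atTop 1000, dk_small (1 / 2) (by norm_num)]
    with k hpar hsec hyL hJL hconc hlexp hVs hb1 hb2 hk1000 hds
  have hk : (1000 : ℝ) ≤ k := by exact_mod_cast hk1000
  have hk0 : (0 : ℝ) < k := by linarith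
  set s := sk ε k with hs
  set Z := z (E k / 8) with hZ
  set S := (range (k + 1)).filter fun w : ℕ => κ * k ≤ w ∧ (w : ℝ) ≤ (1 - κ) * k with hS
  set bad1 : ℕ → Set Ω := fun w => ⋃ i ∈ range (primorial w) ×ˢ Ico (JJ ε k w) (2 * JJ ε k w),
    {ω | ε / 2 * (yL ε k w * (V (Yk k) / V w)) ≤
      |((Sw (Wd (pos (primorial w) (yL ε k w) i) (primorial w) (yL ε k w)) (PI w (Yk k)) fun q => a q ω).card : ℝ) -
        yL ε k w * (V (Yk k) / V w)|} with hbad1
  set bad2 : ℕ → Set Ω := fun w => {ω | (∀ i ∈ range (primorial w) ×ˢ Ico (JJ ε k w) (2 * JJ ε k w),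
        (Sw (Wd (pos (primorial w) (yL ε k w) i) (primorial w) (yL ε k w)) (PI w (Yk k)) fun p => a p ω).card ≤ s) ∧
      ∀ i ∈ (Sw (range (primorial w)) (PN w) fun p => a p ω) ×ˢ Ico (JJ ε k w) (2 * JJ ε k w),
        ¬ ∀ t ∈ Sw (Wd (pos (primorial w) (yL ε k w) i) (primorial w) (yL ε k w)) (PI w (Yk k)) fun p => a p ω,
          ∃ p ∈ PI (Yk k) Z, t % p = a p ω} with hbad2
  have hwS : ∀ w ∈ S, κ * k ≤ w ∧ (w : ℝ) ≤ (1 - κ) * k ∧ w ≤ k := by
    intro w hw
    rw [hS, mem_filter, mem_range] at hw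
    exact ⟨hw.2.1, hw.2.2, by omega⟩
  have hsub : {ω | ¬ LowG z ε κ k fun p => a p ω} ⊆ ⋃ w ∈ S, (bad1 w ∪ bad2 w) := by
    intro ω hω
    have hω : ¬ LowG z ε κ k fun p => a p ω := hω
    unfold LowG at hω
    push Not at hω
    obtain ⟨w, hw1, hw2, h7⟩ := hω
    have hwk : w ≤ k := by
      have : (w : ℝ) ≤ k := by
        refine hw2.trans ?_
        nlinarith
      exact_mod_cast this
    simp only [Set.mem_iUnion, exists_prop]
    refine ⟨w, ?_, ?_⟩
    · rw [hS, mem_filter, mem_range]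
      exact ⟨by omega, hw1, hw2⟩
    · by_cases hc : ∀ i ∈ range (primorial w) ×ˢ Ico (JJ ε k w) (2 * JJ ε k w),
        (Sw (Wd (pos (primorial w) (yL ε k w) i) (primorial w) (yL ε k w)) (PI w (Yk k)) fun p => a p ω).card ≤ s
      · right
        refine ⟨hc, fun i hi hall => ?_⟩
        obtain ⟨t, ht, h8⟩ := h7 i hi
        obtain ⟨p, hp, h9⟩ := hall t ht
        exact h8 p hp h9
      · left
        push Not at hc
        obtain ⟨i, hi, h8⟩ := hc
        simp only [hbad1, Set.mem_iUnion, exists_prop]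
        refine ⟨i, hi, ?_⟩
        show ε / 2 * (yL ε k w * (V (Yk k) / V w)) ≤ |_ - _|
        refine le_trans ?_ (le_abs_self _)
        obtain ⟨-, h9, -, -, -⟩ := hyL w hwk
        have hVw := V_pos w
        have hVY := V_pos (Yk k)
        have h10 : (yL ε k w : ℝ) * (V (Yk k) / V w) ≤ (1 - ε) * k ^ 2 * V (Yk k) := by
          calc (yL ε k w : ℝ) * (V (Yk k) / V w) ≤ ((1 - ε) * k ^ 2 * V w) * (V (Yk k) / V w) := by gcongr
            _ = _ := by field_simp
        have h11 : (1 - ε / 2) * k ^ 2 * V (Yk k) ≤ (s : ℝ) + 1 := (Nat.lt_floor_add_one _).le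
        have h12 : (s : ℝ) + 1 ≤ ((Sw (Wd (pos (primorial w) (yL ε k w) i) (primorial w) (yL ε k w)) (PI w (Yk k))
            fun p => a p ω).card : ℝ) := by exact_mod_cast h8
        have h13 : (1 + ε / 2) * ((1 - ε) * k ^ 2 * V (Yk k)) ≤ (1 - ε / 2) * k ^ 2 * V (Yk k) := by
          have h14 : 0 ≤ (k : ℝ) ^ 2 * V (Yk k) := by positivity
          have h15 : (1 + ε / 2) * (1 - ε) ≤ 1 - ε / 2 := by nlinarith
          have h16 := mul_le_mul_of_nonneg_right h15 h14
          linarith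
        have h14 : (1 + ε / 2) * (yL ε k w * (V (Yk k) / V w)) ≤ (1 + ε / 2) * ((1 - ε) * k ^ 2 * V (Yk k)) := by
          gcongr
        linarith
  -- the first kind of bad events
  have hb1p : ∀ w ∈ S, P.real (bad1 w) ≤ 4 * Real.exp (-(2 * k)) := by
    intro w hw
    obtain ⟨hw1, hw2, hwk⟩ := hwS w hw
    obtain ⟨h9, -, -, -, -⟩ := hyL w hwk
    obtain ⟨-, -, -, hJ4⟩ := hJL w hw1 hw2
    simp only [hbad1]
    refine (measureReal_biUnion_finset_le _ _).trans ?_
    refine (sum_le_sum fun i _ => hconc w (yL ε k w) _ hw1 hwk h9).trans ?_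
    rw [sum_const, nsmul_eq_mul, card_product, card_range, Nat.card_Ico]
    have e : 2 * JJ ε k w - JJ ε k w = JJ ε k w := by omega
    rw [e]
    have h10 : primorial w * JJ ε k w ≤ E k := by
      have h11 : primorial w * JJ ε k w ≤ primorial w * (yL ε k w + 1) * JJ ε k w := by
        have : primorial w * 1 ≤ primorial w * (yL ε k w + 1) := Nat.mul_le_mul_left _ (by omega)
        rw [mul_one] at this
        exact Nat.mul_le_mul_right _ this
      omega
    have h11 : ((primorial w * JJ ε k w : ℕ) : ℝ) ≤ 2 * Real.exp k := by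
      have : ((primorial w * JJ ε k w : ℕ) : ℝ) ≤ E k := by exact_mod_cast h10
      exact this.trans (E_upper k)
    calc ((primorial w * JJ ε k w : ℕ) : ℝ) * (2 * Real.exp (-(3 * k))) ≤ (2 * Real.exp k) * (2 * Real.exp (-(3 * k))) := by
          gcongr
      _ = 4 * (Real.exp k * Real.exp (-(3 * k))) := by ring
      _ = 4 * Real.exp (-(2 * k)) := by
        rw [← Real.exp_add]
        congr 2
        ring
  -- the second kind
  have hb2p : ∀ w ∈ S, P.real (bad2 w) ≤ 16 * k ^ 2 * Real.exp (-(ε / 8 * k)) + 6 / (k : ℝ) ^ 13 := by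
    intro w hw
    obtain ⟨hw1, hw2, hwk⟩ := hwS w hw
    obtain ⟨-, -, -, hy2, hyY⟩ := hyL w hwk
    obtain ⟨-, hJ3, hJ8, hJ4⟩ := hJL w hw1 hw2
    have hwY : w ≤ Yk k := hwk.trans (Nat.le_self_pow (by norm_num) k)
    have hJ1 : 1 ≤ JJ ε k w := by
      have : 1 ≤ k ^ 3 := Nat.one_le_pow _ _ (by omega)
      omega
    have h1 := hsec w (yL ε k w) (JJ ε k w) Z (E k) s hpar (log2_E k (by omega)) hyY hwY hJ1 (by
      have e : primorial w * ((yL ε k w + 1) * (2 * JJ ε k w)) = 2 * (primorial w * (yL ε k w + 1) * JJ ε k w) := by ring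
      rw [e]
      omega)
    refine h1.trans (add_le_add ?_ ?_)
    · -- the expected number
      have hVw := V_pos w
      have hVY := V_pos (Yk k)
      have hq : (0 : ℝ) < primorial w := by exact_mod_cast primorial_pos w
      have hJ0 : (0 : ℝ) < JJ ε k w := by exact_mod_cast hJ1
      have hy0 : (0 : ℝ) < (yL ε k w : ℝ) + 1 := by positivity
      have h2 : Real.exp k / (16 * k ^ 2) ≤ primorial w * V w * JJ ε k w := by
        have h3 : Real.exp k ≤ 8 * (primorial w * (yL ε k w + 1) * JJ ε k w) := by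
          refine (E_lower k).trans ?_
          exact_mod_cast hJ8
        rw [div_le_iff₀ (by positivity)]
        refine h3.trans ?_
        calc 8 * (primorial w * ((yL ε k w : ℝ) + 1) * JJ ε k w) ≤ 8 * (primorial w * (2 * (k ^ 2 * V w)) * JJ ε k w) := by
              gcongr
          _ = _ := by ring
      have h3 : Real.exp (-((1 - ε / 8) * k)) ≤ (1 - dk k Z) ^ s := by
        refine le_trans ?_ (hlexp Z s hpar)
        apply Real.exp_le_exp.2
        apply neg_le_neg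
        have hsu : (s : ℝ) ≤ (1 - ε / 2) * k ^ 2 * V (Yk k) := by
          apply Nat.floor_le
          have : 0 ≤ 1 - ε / 2 := by linarith
          positivity
        have h4 : (s : ℝ) * vk k Z ≤ (1 - ε / 2) * (1 + ε / 8) * k := by
          have h12 : 0 ≤ 1 - ε / 2 := by linarith
          unfold vk
          have hVZ := V_pos Z
          calc (s : ℝ) * (V Z / V (Yk k)) ≤ ((1 - ε / 2) * k ^ 2 * V (Yk k)) * (V Z / V (Yk k)) := by gcongr
            _ = (1 - ε / 2) * k ^ 2 * V Z := by field_simp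
            _ ≤ (1 - ε / 2) * k ^ 2 * ((1 + ε / 8) / k) := by
                have := hVs.2
                gcongr
            _ = _ := by field_simp
        calc (1 + ε / 8) * (s * vk k Z) ≤ (1 + ε / 8) * ((1 - ε / 2) * (1 + ε / 8) * k) := by gcongr
          _ = ((1 + ε / 8) ^ 2 * (1 - ε / 2)) * k := by ring
          _ ≤ (1 - ε / 8) * k := by
            apply mul_le_mul_of_nonneg_right _ hk0.le
            nlinarith [mul_pos hε hε, mul_pos (mul_pos hε hε) hε]
      have h5 : Real.exp (ε / 8 * k) / (16 * k ^ 2) ≤ primorial w * V w * JJ ε k w * (1 - dk k Z) ^ s := by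
        calc Real.exp (ε / 8 * k) / (16 * k ^ 2) = Real.exp k / (16 * k ^ 2) * Real.exp (-((1 - ε / 8) * k)) := by
              have e : Real.exp (ε / 8 * k) = Real.exp k * Real.exp (-((1 - ε / 8) * k)) := by
                rw [← Real.exp_add]
                congr 1
                ring
              rw [e]
              ring
          _ ≤ primorial w * V w * JJ ε k w * (1 - dk k Z) ^ s := by gcongr
      have h6 := one_div_le_one_div_of_le (by positivity) h5
      refine h6.trans (le_of_eq ?_)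
      rw [Real.exp_neg]
      field_simp
    · -- the error term
      have hs3 : (s : ℝ) ≤ (k : ℝ) ^ 2 := by exact_mod_cast hpar.hs3
      have hYR : ((Yk k : ℕ) : ℝ) = (k : ℝ) ^ 20 := by unfold Yk; push_cast; rfl
      have hlg : ((Nat.log 2 (E k) : ℕ) : ℝ) ≤ 3 * k := by exact_mod_cast log2_E k (by omega)
      have h2 : (s : ℝ) ^ 3 * (Nat.log 2 (E k) : ℕ) / (Yk k : ℕ) ≤ 3 / (k : ℝ) ^ 13 := by
        rw [hYR]
        calc (s : ℝ) ^ 3 * (Nat.log 2 (E k) : ℕ) / (k : ℝ) ^ 20 ≤ ((k : ℝ) ^ 2) ^ 3 * (3 * k) / (k : ℝ) ^ 20 := by gcongr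
          _ = 3 / (k : ℝ) ^ 13 := by
            field_simp
      have h3 : 0 ≤ (s : ℝ) ^ 3 * (Nat.log 2 (E k) : ℕ) / (Yk k : ℕ) := by positivity
      have h4 : (3 : ℝ) / (k : ℝ) ^ 13 ≤ 1 := by
        rw [div_le_one (by positivity)]
        calc (3 : ℝ) ≤ 1000 ^ 13 := by norm_num
          _ ≤ (k : ℝ) ^ 13 := by gcongr
      have h5 := exp_quad ((s : ℝ) ^ 3 * (Nat.log 2 (E k) : ℕ) / (Yk k : ℕ)) (by
        rw [abs_of_nonneg h3]
        linarith)
      have h6 : ((s : ℝ) ^ 3 * (Nat.log 2 (E k) : ℕ) / (Yk k : ℕ)) ^ 2 ≤ (s : ℝ) ^ 3 * (Nat.log 2 (E k) : ℕ) / (Yk k : ℕ) := by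
        have h7 : (s : ℝ) ^ 3 * (Nat.log 2 (E k) : ℕ) / (Yk k : ℕ) ≤ 1 := h2.trans h4
        nlinarith
      have e : (6 : ℝ) / (k : ℝ) ^ 13 = 3 / (k : ℝ) ^ 13 + 3 / (k : ℝ) ^ 13 := by ring
      rw [e]
      linarith
  refine (measureReal_mono hsub (measure_ne_top _ _)).trans ?_
  refine (measureReal_biUnion_finset_le _ _).trans ?_
  have e1 : (S.card : ℝ) ≤ 2 * k := by
    have h7 : S.card ≤ k + 1 := by
      have := card_filter_le (range (k + 1)) fun w : ℕ => κ * k ≤ w ∧ (w : ℝ) ≤ (1 - κ) * k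
      rwa [card_range] at this
    have h8 : (S.card : ℝ) ≤ k + 1 := by exact_mod_cast h7
    linarith
  calc ∑ w ∈ S, P.real (bad1 w ∪ bad2 w)
      ≤ ∑ w ∈ S, (4 * Real.exp (-(2 * k)) + (16 * k ^ 2 * Real.exp (-(ε / 8 * k)) + 6 / (k : ℝ) ^ 13)) :=
        sum_le_sum fun w hw => (measureReal_union_le _ _).trans (add_le_add (hb1p w hw) (hb2p w hw))
    _ = S.card * (4 * Real.exp (-(2 * k)) + (16 * k ^ 2 * Real.exp (-(ε / 8 * k)) + 6 / (k : ℝ) ^ 13)) := by
        rw [sum_const, nsmul_eq_mul]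
    _ ≤ (2 * k) * (4 * Real.exp (-(2 * k)) + (16 * k ^ 2 * Real.exp (-(ε / 8 * k)) + 6 / (k : ℝ) ^ 13)) := by gcongr
    _ = 8 * (k ^ 3 * Real.exp (-(2 * k))) / k ^ 2 + 32 * (k ^ 5 * Real.exp (-(ε / 8 * k))) / k ^ 2 +
        12 / (k : ℝ) ^ 10 / k ^ 2 := by
        field_simp
        try ring
    _ ≤ 8 * (1 / 1000) / k ^ 2 + 32 * (1 / 1000) / k ^ 2 + 1 / 1000 / (k : ℝ) ^ 2 := by
        have f1 : (k : ℝ) ^ 3 * Real.exp (-(2 * k)) ≤ 1 / 1000 := by
          rw [Real.exp_neg, ← div_eq_mul_inv, div_le_iff₀ (Real.exp_pos _)]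
          exact hb2
        have f2 : (k : ℝ) ^ 5 * Real.exp (-(ε / 8 * k)) ≤ 1 / 1000 := by
          rw [Real.exp_neg, ← div_eq_mul_inv, div_le_iff₀ (Real.exp_pos _)]
          exact hb1
        have f3 : 12 / (k : ℝ) ^ 10 ≤ 1 / 1000 := by
          rw [div_le_div_iff₀ (by positivity) (by norm_num)]
          calc (12 : ℝ) * 1000 ≤ 1000 ^ 10 := by norm_num
            _ ≤ (k : ℝ) ^ 10 := by gcongr
            _ = 1 * (k : ℝ) ^ 10 := (one_mul _).symm
        gcongr
    _ = (41 / 1000) / (k : ℝ) ^ 2 := by ring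
    _ ≤ 1 / (k : ℝ) ^ 2 := by
        gcongr
        norm_num

end prob

end Pool.Agent.H531.CP
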