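import Pool.Agent.H531.CP.Up
import Pool.Agent.H531.PL.Comp

set_option autoImplicit false

/-!
# Some window is sieved out
-/

open Finset MeasureTheory ProbabilityTheory Filter Topology

namespace Pool.Agent.H531.CP

open Pool.Agent.T2H31.HV Pool.Agent.H531.SI Pool.Agent.H531.MS
open Pool.Agent.T2H32.BF hiding PI

section abs

variable {Ω : Type*} [MeasurableSpace Ω] {P : Measure Ω}

/-- second moment method -/
theorem none_occurs [IsProbabilityMeasure P] {ι : Type*} (I : Finset ι) (K : ι → Set Ω)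
    (hK : ∀ i ∈ I, MeasurableSet (K i)) (ξ m : ℝ) (hξ : 0 ≤ ξ) (hm : 0 < m)
    (h2 : ∀ i ∈ I, ∀ j ∈ I, i ≠ j → P.real (K i ∩ K j) ≤ (1 + ξ) * (P.real (K i) * P.real (K j)))
    (hS : m ≤ ∑ i ∈ I, P.real (K i)) :
    P.real {ω | ∀ i ∈ I, ω ∉ K i} ≤ 1 / m + ξ := by
  classical
  set S := ∑ i ∈ I, P.real (K i) with hSd
  have hS0 : 0 < S := hm.trans_le hS
  have h3 := cheb (P := P) I K hK S hS0
  have hsub : {ω | ∀ i ∈ I, ω ∉ K i} ⊆ {ω | S ≤ |cnt I K ω - S|} := by
    intro ω hω
    have hω : ∀ i ∈ I, ω ∉ K i := hω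
    have h0 : cnt I K ω = 0 := by
      unfold cnt
      refine sum_eq_zero fun i hi => ?_
      exact Set.indicator_of_notMem (hω i hi) _
    show S ≤ |cnt I K ω - S|
    rw [h0, zero_sub, abs_neg]
    exact le_abs_self _
  refine (measureReal_mono hsub (measure_ne_top _ _)).trans (h3.trans ?_)
  have h4 : ∑ i ∈ I, ∑ j ∈ I, P.real (K i ∩ K j) ≤ S + (1 + ξ) * S ^ 2 := by
    have h5 : ∀ i ∈ I, ∀ j ∈ I, P.real (K i ∩ K j) ≤
        (if i = j then P.real (K i) else 0) + (1 + ξ) * (P.real (K i) * P.real (K j)) := by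
      intro i hi j hj
      by_cases hij : i = j
      · subst hij
        rw [if_pos rfl, Set.inter_self]
        have h8 : 0 ≤ P.real (K i) := measureReal_nonneg
        have : 0 ≤ (1 + ξ) * (P.real (K i) * P.real (K i)) := by positivity
        linarith
      · rw [if_neg hij, zero_add]
        exact h2 i hi j hj hij
    calc ∑ i ∈ I, ∑ j ∈ I, P.real (K i ∩ K j)
        ≤ ∑ i ∈ I, ∑ j ∈ I, ((if i = j then P.real (K i) else 0) + (1 + ξ) * (P.real (K i) * P.real (K j))) :=
          sum_le_sum fun i hi => sum_le_sum fun j hj => h5 i hi j hj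
      _ = S + (1 + ξ) * S ^ 2 := by
          simp only [sum_add_distrib]
          congr 1
          · rw [hSd]
            refine sum_congr rfl fun i hi => ?_
            rw [sum_ite_eq, if_pos hi]
          · rw [sq, hSd, sum_mul_sum, mul_sum]
            refine sum_congr rfl fun i _ => ?_
            rw [mul_sum]
  calc (∑ i ∈ I, ∑ j ∈ I, P.real (K i ∩ K j) - S ^ 2) / S ^ 2 ≤ (S + ξ * S ^ 2) / S ^ 2 := by
        apply div_le_div_of_nonneg_right _ (by positivity)
        linarith
    _ = 1 / S + ξ := by field_simp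
    _ ≤ 1 / m + ξ := by
        have := one_div_le_one_div_of_le hm hS
        linarith

end abs

open Classical in
/-- the number of the classes modulo the primorial that are not sieved out -/
theorem class_count (w : ℕ) (α : ℕ → ℕ) :
    (primorial w : ℝ) * V w ≤ ((Sw (range (primorial w)) (PN w) α).card : ℝ) := by
  have hpr : ∀ p ∈ PN w, p.Prime := fun p hp => ((mem_PN _ _).1 hp).2
  have hq : primorial w = ∏ p ∈ PN w, p := rfl
  have h1 := Pool.Agent.H531.PL.crt_sum (PN w) hpr (fun p r => if r ≠ α p then (1 : ℝ) else 0)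
  have h2 : ((Sw (range (primorial w)) (PN w) α).card : ℝ) =
      ∑ m ∈ range (∏ p ∈ PN w, p), ∏ p ∈ PN w, (if m % p ≠ α p then (1 : ℝ) else 0) := by
    rw [← hq]
    unfold Sw
    rw [card_filter]
    push_cast
    refine sum_congr rfl fun m _ => ?_
    by_cases h3 : ∀ p ∈ PN w, m % p ≠ α p
    · rw [if_pos h3, prod_congr rfl fun p hp => if_pos (h3 p hp), prod_const_one]
    · rw [if_neg h3]
      push Not at h3
      obtain ⟨p, hp, h4⟩ := h3
      exact (prod_eq_zero hp (if_neg fun h5 => h5 h4)).symm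
  rw [h2, h1, hq]
  push_cast
  rw [V_eq, ← prod_mul_distrib]
  refine prod_le_prod (fun p hp => ?_) fun p hp => ?_
  · exact mul_nonneg (Nat.cast_nonneg _) (fac_pos (hpr p hp)).le
  · have hp0 : (p : ℝ) ≠ 0 := by exact_mod_cast (hpr p hp).ne_zero
    rw [← sum_filter, sum_const, nsmul_eq_mul, mul_one]
    have h3 : range p \ {α p} = (range p).filter fun r => r ≠ α p := by
      ext r
      rw [Finset.mem_sdiff, mem_filter, mem_singleton]
    have h4 : p - 1 ≤ ((range p).filter fun r => r ≠ α p).card := by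
      rw [← h3]
      have := le_card_sdiff {α p} (range p)
      rwa [card_singleton, card_range] at this
    have h5 : ((p - 1 : ℕ) : ℝ) ≤ (((range p).filter fun r => r ≠ α p).card : ℝ) := by exact_mod_cast h4
    rw [Nat.cast_sub (hpr p hp).one_le] at h5
    push_cast at h5
    have e : (p : ℝ) * (1 - 1 / p) = p - 1 := by field_simp
    rw [e]
    exact h5

/-- the position of a window -/
def pos (q y : ℕ) (i : ℕ × ℕ) : ℕ := i.1 + q * ((y + 1) * i.2)

theorem Wd_disj (q y : ℕ) (i i' : ℕ × ℕ) (hi : i.1 < q) (hi' : i'.1 < q) (hne : i ≠ i') :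
    Disjoint (Wd (pos q y i) q y) (Wd (pos q y i') q y) := by
  rw [disjoint_left]
  intro t ht ht'
  obtain ⟨m, hm, h1⟩ := mem_Wd.1 ht
  obtain ⟨m', hm', h2⟩ := mem_Wd.1 ht'
  unfold pos at h1 h2
  have hq : 0 < q := by omega
  have e1 : t = i.1 + q * ((y + 1) * i.2 + m) := by rw [← h1]; ring
  have e2 : t = i'.1 + q * ((y + 1) * i'.2 + m') := by rw [← h2]; ring
  have f1 : t % q = i.1 := by rw [e1, Nat.add_mul_mod_self_left, Nat.mod_eq_of_lt hi]
  have f2 : t % q = i'.1 := by rw [e2, Nat.add_mul_mod_self_left, Nat.mod_eq_of_lt hi']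
  have g1 : i.1 = i'.1 := f1.symm.trans f2
  have g2 : (y + 1) * i.2 + m = (y + 1) * i'.2 + m' := by
    have : i.1 + q * ((y + 1) * i.2 + m) = i.1 + q * ((y + 1) * i'.2 + m') := by
      rw [← e1, e2, g1]
    exact Nat.eq_of_mul_eq_mul_left hq (by omega)
  have g3 : i.2 = i'.2 := by
    have h3 : ((y + 1) * i.2 + m) / (y + 1) = i.2 := by
      rw [Nat.mul_add_div (by omega), Nat.div_eq_of_lt (by omega), add_zero]
    have h4 : ((y + 1) * i'.2 + m') / (y + 1) = i'.2 := by
      rw [Nat.mul_add_div (by omega), Nat.div_eq_of_lt (by omega), add_zero]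
    rw [← h3, ← h4, g2]
  exact hne (Prod.ext g1 g3)

variable {Ω : Type} [MeasurableSpace Ω] {P : Measure Ω} {a : ℕ → Ω → ℕ}

open Classical in
/-- **Some window is sieved out.** -/
theorem sec_win (h : Model P a) : ∀ᶠ k : ℕ in atTop, ∀ w y J Z X s : ℕ, Par k Z s → Nat.log 2 X ≤ 3 * k →
    y ≤ Yk k → w ≤ Yk k → 1 ≤ J → primorial w * ((y + 1) * (2 * J)) ≤ X →
    P.real {ω | (∀ i ∈ range (primorial w) ×ˢ Ico J (2 * J),
          (Sw (Wd (pos (primorial w) y i) (primorial w) y) (PI w (Yk k)) fun p => a p ω).card ≤ s) ∧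
        ∀ i ∈ (Sw (range (primorial w)) (PN w) fun p => a p ω) ×ˢ Ico J (2 * J),
          ¬ ∀ t ∈ Sw (Wd (pos (primorial w) y i) (primorial w) y) (PI w (Yk k)) fun p => a p ω,
            ∃ p ∈ PI (Yk k) Z, t % p = a p ω} ≤
      1 / (primorial w * V w * J * (1 - dk k Z) ^ s) + (Real.exp (s ^ 3 * Nat.log 2 X / Yk k) - 1) := by
  have := prob h
  filter_upwards [low_all h, ratio_all, dk_small (1 / 2) (by norm_num), eventually_ge_atTop 1] with k hlow hrat hds hk1
  intro w y J Z X s hp hX hyY hwY hJ hJX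
  set q := primorial w with hq
  have hq0 : 0 < q := primorial_pos w
  have hVw := V_pos w
  have hd := hds Z s hp
  have hd0 := dk_pos k Z
  have h1d : 0 < 1 - dk k Z := by linarith
  have hY0 : 0 < Yk k := by
    unfold Yk
    positivity
  have hY0' : (0 : ℝ) < Yk k := by exact_mod_cast hY0
  have hJ0 : (0 : ℝ) < J := by exact_mod_cast hJ
  have hq0' : (0 : ℝ) < q := by exact_mod_cast hq0
  set ξ := Real.exp (s ^ 3 * Nat.log 2 X / Yk k) - 1 with hξ
  have hξ0 : 0 ≤ ξ := by
    have : 1 ≤ Real.exp ((s : ℝ) ^ 3 * Nat.log 2 X / Yk k) := Real.one_le_exp (by positivity)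
    linarith
  set m : ℝ := q * V w * J * (1 - dk k Z) ^ s with hm
  have hm0 : 0 < m := by positivity
  have hdisj : Disjoint (PN (Yk k)) (PI (Yk k) Z) := by
    rw [disjoint_left]
    intro p hp1 hp2
    rw [mem_PN] at hp1
    rw [mem_PI] at hp2
    omega
  have hPIN : PI w (Yk k) ⊆ PN (Yk k) := by
    intro p hp1
    rw [mem_PI] at hp1
    rw [mem_PN]
    exact ⟨hp1.1.2, hp1.2⟩
  have hPNN : PN w ⊆ PN (Yk k) := by
    intro p hp1
    rw [mem_PN] at hp1 ⊢
    exact ⟨hp1.1.trans hwY, hp1.2⟩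
  set T : (ℕ → ℕ) → ℕ × ℕ → Finset ℕ := fun b i => Sw (Wd (pos q y i) q y) (PI w (Yk k)) b with hT
  have hTcongr : ∀ b b' : ℕ → ℕ, (∀ p ∈ PN (Yk k), b p = b' p) → ∀ i, T b i = T b' i := fun b b' hb i =>
    Sw_congr _ _ _ _ fun p hp1 => hb p (hPIN hp1)
  have hAcongr : ∀ b b' : ℕ → ℕ, (∀ p ∈ PN (Yk k), b p = b' p) →
      Sw (range q) (PN w) b = Sw (range q) (PN w) b' := fun b b' hb =>
    Sw_congr _ _ _ _ fun p hp1 => hb p (hPNN hp1)
  refine cond_one h (PN (Yk k)) (PI (Yk k) Z) hdisj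
    (fun b => (∀ i ∈ range q ×ˢ Ico J (2 * J), (T b i).card ≤ s) ∧
      ∀ i ∈ (Sw (range q) (PN w) b) ×ˢ Ico J (2 * J), ¬ ∀ t ∈ T b i, ∃ p ∈ PI (Yk k) Z, t % p = b p) ?_ _
    (by positivity) ?_
  · intro b b' hb
    have hb1 : ∀ p ∈ PN (Yk k), b p = b' p := fun p hp1 => hb p (mem_union_left _ hp1)
    have e1 : ∀ i, T b i = T b' i := hTcongr b b' hb1
    have e2 := hAcongr b b' hb1
    simp only [e1, e2]
    refine and_congr_right fun _ => forall_congr' fun i => forall_congr' fun _ => not_congr ?_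
    refine forall_congr' fun t => forall_congr' fun _ => exists_congr fun p => ?_
    refine and_congr_right fun hp1 => ?_
    rw [hb p (mem_union_right _ hp1)]
  · intro α
    have e1 : ∀ ω i, T (fun i => if i ∈ PN (Yk k) then α i else a i ω) i = T α i := fun ω i =>
      hTcongr _ _ (fun p hp1 => if_pos hp1) i
    have e2 : ∀ ω, Sw (range q) (PN w) (fun i => if i ∈ PN (Yk k) then α i else a i ω) = Sw (range q) (PN w) α :=
      fun ω => hAcongr _ _ fun p hp1 => if_pos hp1
    simp only [e1, e2]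
    by_cases hc : ∀ i ∈ range q ×ˢ Ico J (2 * J), (T α i).card ≤ s
    · set I := (Sw (range q) (PN w) α) ×ˢ Ico J (2 * J) with hI
      have hIsub : ∀ i ∈ I, i.1 < q ∧ i.2 < 2 * J := by
        intro i hi
        rw [hI, mem_product] at hi
        have h1 : i.1 ∈ range q := by
          have h2 := hi.1
          unfold Sw at h2
          exact (mem_filter.1 h2).1
        exact ⟨mem_range.1 h1, (mem_Ico.1 hi.2).2⟩
      have hIR : ∀ i ∈ I, i ∈ range q ×ˢ Ico J (2 * J) := by
        intro i hi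
        have h1 := hIsub i hi
        rw [hI, mem_product] at hi
        rw [mem_product, mem_range]
        exact ⟨h1.1, hi.2⟩
      have hTW : ∀ i, T α i ⊆ Wd (pos q y i) q y := fun i => by
        simp only [hT]
        exact filter_subset _ _
      have hTX : ∀ i ∈ I, ∀ t ∈ T α i, t ≤ X := by
        intro i hi t ht
        obtain ⟨m', hm', h1⟩ := mem_Wd.1 (hTW i ht)
        obtain ⟨h2, h3⟩ := hIsub i hi
        unfold pos at h1
        have h4 : i.2 + 1 ≤ 2 * J := h3
        have h5 : t ≤ q * ((y + 1) * (i.2 + 1)) := by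
          calc t = i.1 + q * ((y + 1) * i.2) + q * m' := h1.symm
            _ ≤ q + q * ((y + 1) * i.2) + q * y := by
              have : q * m' ≤ q * y := Nat.mul_le_mul_left _ hm'.2
              omega
            _ = q * ((y + 1) * (i.2 + 1)) := by ring
        have h6 : q * ((y + 1) * (i.2 + 1)) ≤ q * ((y + 1) * (2 * J)) :=
          Nat.mul_le_mul_left _ (Nat.mul_le_mul_left _ h4)
        omega
      have hinj : ∀ i, ∀ p ∈ PI (Yk k) Z, Set.InjOn (fun u => u % p) (T α i) := by
        intro i p hp1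
        have h1 := mem_PI.1 hp1
        exact Wd_injOn _ w y p h1.2 (lt_of_le_of_lt hwY h1.1.1) (lt_of_le_of_lt hyY h1.1.1) _ (hTW i)
      have hvk : vk k Z = ∏ p ∈ PI (Yk k) Z, (1 - 1 / (p : ℝ)) := V_ratio _ _ hp.hYZ
      have hpair : ∀ i ∈ I, ∀ j ∈ I, i ≠ j →
          P.real (Kill a (T α i) (PI (Yk k) Z) ∩ Kill a (T α j) (PI (Yk k) Z)) ≤
            (1 + ξ) * (P.real (Kill a (T α i) (PI (Yk k) Z)) * P.real (Kill a (T α j) (PI (Yk k) Z))) := by
        intro i hi j hj hij
        have h1 := pair_bound h (T α i) (T α j) (PI (Yk k) Z) (fun p hp1 => (mem_PI.1 hp1).2)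
          (hinj i) (hinj j) (disjoint_of_subset_left (hTW i) (disjoint_of_subset_right (hTW j)
            (Wd_disj q y i j (hIsub i hi).1 (hIsub j hj).1 hij))) X (by
            intro u hu
            rcases mem_union.1 hu with hu | hu
            · exact hTX i hi u hu
            · exact hTX j hj u hu) (Yk k) hY0' (fun p hp1 => by exact_mod_cast (mem_PI.1 hp1).1.1.le) s
          (hc i (hIR i hi)) (hc j (hIR j hj)) (vk k Z) (dk k Z) hvk (hlow Z X s hp hX) (hrat Z s hp)
        rw [hξ]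
        have e : 1 + (Real.exp ((s : ℝ) ^ 3 * Nat.log 2 X / Yk k) - 1) = Real.exp ((s : ℝ) ^ 3 * Nat.log 2 X / Yk k) := by
          ring
        rw [e]
        exact h1
      have hsum : m ≤ ∑ i ∈ I, P.real (Kill a (T α i) (PI (Yk k) Z)) := by
        have h1 : ∀ i ∈ I, (1 - dk k Z) ^ s ≤ P.real (Kill a (T α i) (PI (Yk k) Z)) := by
          intro i hi
          have h2 := hlow Z X s hp hX (PI (Yk k) Z) (subset_refl _) (by simp) (T α i) (hc i (hIR i hi)) (hinj i)
          refine le_trans ?_ h2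
          exact pow_le_pow_of_le_one h1d.le (by linarith) (hc i (hIR i hi))
        have h2 : (I.card : ℝ) * (1 - dk k Z) ^ s ≤ ∑ i ∈ I, P.real (Kill a (T α i) (PI (Yk k) Z)) := by
          calc (I.card : ℝ) * (1 - dk k Z) ^ s = ∑ i ∈ I, (1 - dk k Z) ^ s := by
                rw [sum_const, nsmul_eq_mul]
            _ ≤ _ := sum_le_sum h1
        refine le_trans ?_ h2
        rw [hm]
        apply mul_le_mul_of_nonneg_right _ (by positivity)
        rw [hI, card_product, Nat.card_Ico]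
        have h3 := class_count w α
        have e : 2 * J - J = J := by omega
        rw [e]
        push_cast
        exact mul_le_mul_of_nonneg_right h3 hJ0.le
      have key := none_occurs (P := P) I (fun i => Kill a (T α i) (PI (Yk k) Z)) (fun i _ => Kill_meas h _ _)
        ξ m hξ0 hm0 hpair hsum
      refine le_trans (measureReal_mono ?_ (measure_ne_top _ _)) key
      intro ω hω i hi hK
      obtain ⟨-, h1⟩ := hω
      refine h1 i hi fun t ht => ?_
      obtain ⟨p, hp1, h2⟩ := hK t ht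
      refine ⟨p, hp1, ?_⟩
      rw [if_neg fun h3 => disjoint_left.1 hdisj h3 hp1]
      exact h2
    · have hempty : {ω | (∀ i ∈ range q ×ˢ Ico J (2 * J), (T α i).card ≤ s) ∧
          ∀ i ∈ (Sw (range q) (PN w) α) ×ˢ Ico J (2 * J), ¬ ∀ t ∈ T α i, ∃ p ∈ PI (Yk k) Z,
            t % p = if p ∈ PN (Yk k) then α p else a p ω} = ∅ := by
        ext ω
        simp only [Set.mem_ofPred_eq, Set.mem_empty_iff_false, iff_false]
        rintro ⟨h3, -⟩
        exact hc h3
      rw [hempty]
      simp only [measureReal_empty]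
      positivity

end Pool.Agent.H531.CP
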