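import Pool.Agent.H531.CP.LowK

set_option autoImplicit false

/-!
# Long windows are not sieved out
-/

open Finset MeasureTheory ProbabilityTheory Filter Topology

namespace Pool.Agent.H531.CP

open Pool.Agent.T2H31.HV Pool.Agent.H531.SI Pool.Agent.H531.MS
open Pool.Agent.T2H32.BF hiding PI

variable {Ω : Type} [MeasurableSpace Ω] {P : Measure Ω} {a : ℕ → Ω → ℕ}

theorem Wd_injOn (u w y p : ℕ) (hp : p.Prime) (hwp : w < p) (hyp : y < p) (T : Finset ℕ)
    (hT : T ⊆ Wd u (primorial w) y) : Set.InjOn (fun t => t % p) T := by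
  intro t ht t' ht' h
  exact Wd_sep u (primorial w) y p hyp (coprime_primorial hp hwp) t (hT ht) t' (hT ht') h

open Classical in
/-- **The upper bound for one window.** -/
theorem up_win (h : Model P a) (ε κ : ℝ) (hε : 0 < ε) (hε1 : ε ≤ 1) (hκ : 0 < κ) :
    ∀ᶠ k : ℕ in atTop, ∀ w y u Z : ℕ, κ * k ≤ w → w ≤ k → (1 + ε) * k ^ 2 * V w ≤ y → y ≤ Yk k →
      Yk k ≤ Z → (1 - ε / 8) / k ≤ V Z →
      P.real (Kill a (Wd u (primorial w) y) (PI w Z)) ≤ 3 * Real.exp (-((1 + ε / 2) * k)) := by
  have := prob h
  filter_upwards [conc_win h (ε / 8) κ (1 + ε) (by positivity) hκ (by positivity), eventually_ge_atTop 1]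
    with k hconc hk1
  intro w y u Z hkw hwk hy hyY hYZ hVZ
  have hk : (1 : ℝ) ≤ k := by exact_mod_cast hk1
  have hk0 : (0 : ℝ) < k := by linarith
  have h1 := hconc w y u hkw hwk hy
  set W := Wd u (primorial w) y with hW
  set ρ := V (Yk k) / V w with hρ
  have hwY : w ≤ Yk k := hwk.trans (Nat.le_self_pow (by norm_num) k)
  have hVw := V_pos w
  have hVY := V_pos (Yk k)
  have hVZ0 := V_pos Z
  have hρ0 : 0 < ρ := by positivity
  have hdisj : Disjoint (PI w (Yk k)) (PI (Yk k) Z) := PI_disj _ _ _
  have hun : PI w Z = PI w (Yk k) ∪ PI (Yk k) Z := PI_union w (Yk k) Z hwY hYZ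
  -- the second phase
  set Q : (ℕ → ℕ) → Prop := fun b => (∀ t ∈ W, ∃ p ∈ PI w Z, t % p = b p) ∧
    (1 - ε / 8) * (y * ρ) ≤ (Sw W (PI w (Yk k)) b).card with hQ
  have h2 : P.real {ω | Q (fun i => a i ω)} ≤ Real.exp (-((1 + ε / 2) * k)) := by
    refine cond_one h (PI w (Yk k)) (PI (Yk k) Z) hdisj Q ?_ _ (Real.exp_pos _).le ?_
    · intro b b' hb
      simp only [hQ]
      rw [Sw_congr W (PI w (Yk k)) b b' (fun p hp => hb p (mem_union_left _ hp))]
      have e : (∀ t ∈ W, ∃ p ∈ PI w Z, t % p = b p) ↔ (∀ t ∈ W, ∃ p ∈ PI w Z, t % p = b' p) := by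
        refine forall_congr' fun t => forall_congr' fun _ => exists_congr fun p => ?_
        refine and_congr_right fun hp => ?_
        rw [hb p (by rwa [← hun])]
      rw [e]
    · intro α
      set T0 := Sw W (PI w (Yk k)) α with hT0
      have hT0W : T0 ⊆ W := by
        rw [hT0]
        exact filter_subset _ _
      have hSw : ∀ ω, Sw W (PI w (Yk k)) (fun i => if i ∈ PI w (Yk k) then α i else a i ω) = T0 := fun ω => by
        rw [hT0]
        exact Sw_congr _ _ _ _ fun p hp => if_pos hp
      by_cases hc : (1 - ε / 8) * (y * ρ) ≤ (T0.card : ℝ)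
      · have hsub : {ω | Q (fun i => if i ∈ PI w (Yk k) then α i else a i ω)} ⊆ Kill a T0 (PI (Yk k) Z) := by
          intro ω hω t ht
          obtain ⟨h3, -⟩ := hω
          obtain ⟨p, hp, h4⟩ := h3 t (hT0W ht)
          simp only at h4
          rw [hun, mem_union] at hp
          by_cases hp1 : p ∈ PI w (Yk k)
          · rw [if_pos hp1] at h4
            have h5 : t ∈ Sw W (PI w (Yk k)) α := ht
            unfold Sw at h5
            exact absurd h4 ((mem_filter.1 h5).2 p hp1)
          · rw [if_neg hp1] at h4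
            exact ⟨p, hp.resolve_left hp1, h4⟩
        have h3 := Kill_upper h T0 (PI (Yk k) Z) (fun p hp => (mem_PI.1 hp).2) (fun p hp =>
          Wd_injOn u w y p (mem_PI.1 hp).2 (lt_of_le_of_lt hwY (mem_PI.1 hp).1.1)
            (lt_of_le_of_lt hyY (mem_PI.1 hp).1.1) T0 hT0W)
        have hv : ∏ p ∈ PI (Yk k) Z, (1 - 1 / (p : ℝ)) = V Z / V (Yk k) := (V_ratio _ _ hYZ).symm
        rw [hv] at h3
        have hv1 : V Z / V (Yk k) ≤ 1 := by
          rw [← hv]
          exact prod_le_one' fun q hq => (mem_PI.1 hq).2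
        refine (measureReal_mono hsub (measure_ne_top _ _)).trans (h3.trans ?_)
        have h4 : 1 - V Z / V (Yk k) ≤ Real.exp (-(V Z / V (Yk k))) := by
          have := Real.add_one_le_exp (-(V Z / V (Yk k)))
          linarith
        calc (1 - V Z / V (Yk k)) ^ T0.card ≤ Real.exp (-(V Z / V (Yk k))) ^ T0.card :=
              pow_le_pow_left₀ (by linarith) h4 _
          _ = Real.exp (-(T0.card * (V Z / V (Yk k)))) := by
              rw [← Real.exp_nat_mul]
              congr 1
              ring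
          _ ≤ Real.exp (-((1 + ε / 2) * k)) := by
              apply Real.exp_le_exp.2
              apply neg_le_neg
              calc (1 + ε / 2) * (k : ℝ) ≤ (1 - ε / 8) * (1 + ε) * (1 - ε / 8) * k := by
                    apply mul_le_mul_of_nonneg_right _ hk0.le
                    nlinarith [sq_nonneg ε, mul_pos hε hε]
                _ = (1 - ε / 8) * ((1 + ε) * k ^ 2 * V w) * (1 / V w) * ((1 - ε / 8) / k) := by
                    field_simp
                _ ≤ (1 - ε / 8) * y * (1 / V w) * V Z := by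
                    have h5 : 0 ≤ 1 - ε / 8 := by linarith
                    gcongr
                _ = (1 - ε / 8) * (y * ρ) * (V Z / V (Yk k)) := by
                    rw [hρ]
                    field_simp
                _ ≤ T0.card * (V Z / V (Yk k)) := by gcongr
      · have hempty : {ω | Q (fun i => if i ∈ PI w (Yk k) then α i else a i ω)} = ∅ := by
          ext ω
          simp only [Set.mem_ofPred_eq, Set.mem_empty_iff_false, iff_false]
          rintro ⟨-, h3⟩
          rw [hSw ω] at h3
          exact hc h3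
        rw [hempty]
        simp only [measureReal_empty]
        exact (Real.exp_pos _).le
  have hsub : Kill a W (PI w Z) ⊆ {ω | ε / 8 * (y * ρ) ≤
      |((Sw W (PI w (Yk k)) fun q => a q ω).card : ℝ) - y * ρ|} ∪ {ω | Q (fun i => a i ω)} := by
    intro ω hω
    by_cases hc : (1 - ε / 8) * (y * ρ) ≤ ((Sw W (PI w (Yk k)) fun q => a q ω).card : ℝ)
    · right
      exact ⟨fun t ht => hω t ht, hc⟩
    · left
      push Not at hc
      show ε / 8 * (y * ρ) ≤ |((Sw W (PI w (Yk k)) fun q => a q ω).card : ℝ) - y * ρ|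
      rw [abs_sub_comm]
      refine le_trans ?_ (le_abs_self _)
      linarith
  refine (measureReal_mono hsub (measure_ne_top _ _)).trans ((measureReal_union_le _ _).trans ?_)
  have h3 : Real.exp (-(3 * k)) ≤ Real.exp (-((1 + ε / 2) * (k : ℝ))) := by
    apply Real.exp_le_exp.2
    nlinarith
  linarith

end Pool.Agent.H531.CP
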