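import Pool.Agent.H531.CP.Mgf

set_option autoImplicit false

/-!
# Windows in arithmetic progressions; sums over primes
-/

open Finset MeasureTheory ProbabilityTheory Filter Topology

namespace Pool.Agent.H531.CP

open Pool.Agent.T2H31.HV Pool.Agent.H531.SI Pool.Agent.H531.MS
open Pool.Agent.T2H32.BF hiding PI

/-- the window `u + q, u + 2 q, …, u + y q` -/
def Wd (u q y : ℕ) : Finset ℕ := (Icc 1 y).image fun m => u + q * m

theorem mem_Wd {u q y n : ℕ} : n ∈ Wd u q y ↔ ∃ m, (1 ≤ m ∧ m ≤ y) ∧ u + q * m = n := by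
  unfold Wd
  rw [mem_image]
  simp only [mem_Icc]

theorem Wd_inj (u q : ℕ) (hq : 0 < q) : Function.Injective fun m => u + q * m := by
  intro m m' h
  simp only at h
  exact Nat.eq_of_mul_eq_mul_left hq (by omega)

theorem Wd_card (u q y : ℕ) (hq : 0 < q) : (Wd u q y).card = y := by
  unfold Wd
  rw [card_image_of_injective _ (Wd_inj u q hq), Nat.card_Icc]
  omega

theorem modEq_of_coprime (u q p m m' : ℕ) (hpq : Nat.Coprime p q) (h : (u + q * m) % p = (u + q * m') % p) :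
    m % p = m' % p := by
  have h1 : u + q * m ≡ u + q * m' [MOD p] := h
  have h2 := Nat.ModEq.add_left_cancel' u h1
  exact Nat.ModEq.cancel_left_of_coprime hpq h2

/-- a class in a window -/
theorem Wd_class (u q y p r : ℕ) (hq : 0 < q) (hp : 0 < p) (hpq : Nat.Coprime p q) :
    ((Wd u q y).filter fun t => t % p = r).card ≤ y / p + 1 := by
  have h1 : ((Wd u q y).filter fun t => t % p = r) =
      ((Icc 1 y).filter fun m => (u + q * m) % p = r).image fun m => u + q * m := by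
    unfold Wd
    rw [filter_image]
  rw [h1, card_image_of_injective _ (Wd_inj u q hq), ← card_range (y / p + 1)]
  apply card_le_card_of_injOn (fun m => (m - 1) / p)
  · intro m hm
    rw [mem_coe, mem_filter, mem_Icc] at hm
    rw [mem_coe, mem_range]
    have h5 : (m - 1) / p ≤ y / p := Nat.div_le_div_right (by omega)
    exact Nat.lt_succ_of_le h5
  · intro m hm m' hm' hmm
    rw [mem_coe, mem_filter, mem_Icc] at hm hm'
    simp only at hmm
    have h2 : m % p = m' % p := modEq_of_coprime u q p m m' hpq (hm.2.trans hm'.2.symm)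
    wlog hle : m ≤ m' generalizing m m'
    · exact (this hm' hm hmm.symm h2.symm (by omega)).symm
    have hdvd : p ∣ m' - m := (Nat.modEq_iff_dvd' hle).1 h2
    by_contra hne
    have hpos : 0 < m' - m := by omega
    have h4 : p ≤ m' - m := Nat.le_of_dvd hpos hdvd
    have h5 : (m - 1) / p + 1 ≤ (m' - 1) / p := by
      rw [Nat.le_div_iff_mul_le hp, add_mul, one_mul]
      have := Nat.div_mul_le_self (m - 1) p
      omega
    omega

theorem Wd_sep (u q y p : ℕ) (hyp : y < p) (hpq : Nat.Coprime p q) :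
    ∀ t ∈ Wd u q y, ∀ t' ∈ Wd u q y, t % p = t' % p → t = t' := by
  intro t ht t' ht' h
  obtain ⟨m, hm, rfl⟩ := mem_Wd.1 ht
  obtain ⟨m', hm', rfl⟩ := mem_Wd.1 ht'
  have h2 := modEq_of_coprime u q p m m' hpq h
  rw [Nat.mod_eq_of_lt (by omega), Nat.mod_eq_of_lt (by omega)] at h2
  rw [h2]

theorem coprime_primorial {w p : ℕ} (hp : p.Prime) (hwp : w < p) : Nat.Coprime p (primorial w) := by
  unfold primorial
  apply Nat.Coprime.prod_right
  intro q hq
  rw [mem_filter, mem_range] at hq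
  exact (Nat.coprime_primes hp hq.2).2 (by omega)

/-! ## Sums over primes -/

theorem PI_union (l m n : ℕ) (h : l ≤ m) (h' : m ≤ n) : PI l n = PI l m ∪ PI m n := by
  ext p
  rw [mem_union, mem_PI, mem_PI, mem_PI]
  constructor
  · rintro ⟨h1, h2⟩
    by_cases h3 : p ≤ m
    · exact Or.inl ⟨⟨h1.1, h3⟩, h2⟩
    · exact Or.inr ⟨⟨by omega, h1.2⟩, h2⟩
  · rintro (⟨h1, h2⟩ | ⟨h1, h2⟩)
    · exact ⟨⟨h1.1, by omega⟩, h2⟩
    · exact ⟨⟨by omega, h1.2⟩, h2⟩

theorem PI_disj (l m n : ℕ) : Disjoint (PI l m) (PI m n) := by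
  rw [disjoint_left]
  intro p hp hp'
  rw [mem_PI] at hp hp'
  omega

/-- the squares of the reciprocals of the primes beyond `w` are `o (1 / w)` -/
theorem sum_sq (η : ℝ) (hη : 0 < η) : ∃ w0 : ℕ, 2 ≤ w0 ∧ ∀ w Y : ℕ, w0 ≤ w →
    ∑ p ∈ PI w Y, 1 / (p : ℝ) ^ 2 ≤ η / w := by
  obtain ⟨u0, hu0, hu⟩ := recip_near (η / 4) (by positivity)
  have hlog : ∀ᶠ u : ℕ in atTop, Real.log 2 ≤ η / 4 * Real.log u := by
    have h1 : Tendsto (fun u : ℕ => η / 4 * Real.log u) atTop atTop :=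
      (Real.tendsto_log_atTop.comp tendsto_natCast_atTop_atTop).const_mul_atTop (by positivity)
    exact h1.eventually_ge_atTop _
  obtain ⟨u1, hu1⟩ := eventually_atTop.1 hlog
  refine ⟨max u0 u1, le_trans hu0 (le_max_left _ _), fun w Y hw => ?_⟩
  have hw2 : 2 ≤ w := hu0.trans ((le_max_left _ _).trans hw)
  have hw0 : (0 : ℝ) < w := by exact_mod_cast (by omega : 0 < w)
  -- one dyadic block
  have hblock : ∀ u : ℕ, w ≤ u → ∑ p ∈ PI u (2 * u), 1 / (p : ℝ) ^ 2 ≤ η / 2 / u := by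
    intro u hwu
    have hu0' : (0 : ℝ) < u := by exact_mod_cast (by omega : 0 < u)
    have h1 := hu u (2 * u) ((le_max_left _ _).trans (hw.trans hwu)) (by omega) (by
      push_cast
      rw [Real.log_mul (by norm_num) hu0'.ne']
      have := hu1 u ((le_max_right _ _).trans (hw.trans hwu))
      linarith)
    calc ∑ p ∈ PI u (2 * u), 1 / (p : ℝ) ^ 2 ≤ ∑ p ∈ PI u (2 * u), (1 / (u : ℝ)) * (1 / (p : ℝ)) := by
          refine sum_le_sum fun p hp => ?_
          have hpu := (mem_PI.1 hp).1.1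
          have h2 : (u : ℝ) ≤ p := by exact_mod_cast hpu.le
          have h3 : (0 : ℝ) < p := by linarith
          have e : 1 / (p : ℝ) ^ 2 = (1 / p) * (1 / p) := by
            field_simp
          rw [e]
          have h4 : 1 / (p : ℝ) ≤ 1 / u := one_div_le_one_div_of_le hu0' h2
          exact mul_le_mul_of_nonneg_right h4 (by positivity)
      _ = (1 / (u : ℝ)) * ∑ p ∈ PI u (2 * u), 1 / (p : ℝ) := by rw [mul_sum]
      _ ≤ (1 / (u : ℝ)) * (2 * (η / 4)) := mul_le_mul_of_nonneg_left h1 (by positivity)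
      _ = η / 2 / u := by ring
  have hind : ∀ n : ℕ, ∑ p ∈ PI w (2 ^ n * w), 1 / (p : ℝ) ^ 2 ≤ η / w * (1 - 1 / 2 ^ n) := by
    intro n
    induction n with
    | zero =>
      have : PI w (2 ^ 0 * w) = ∅ := by
        rw [pow_zero, one_mul]
        unfold PI
        simp
      rw [this]
      simp
    | succ n ih =>
      have h1 : w ≤ 2 ^ n * w := Nat.le_mul_of_pos_left _ (by positivity)
      have h2 := hblock (2 ^ n * w) h1
      have e : 2 ^ (n + 1) * w = 2 * (2 ^ n * w) := by ring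
      rw [e, PI_union w (2 ^ n * w) (2 * (2 ^ n * w)) h1 (by omega), sum_union (PI_disj _ _ _)]
      have e2 : η / 2 / ((2 ^ n * w : ℕ) : ℝ) = η / w * (1 / 2 ^ (n + 1)) := by
        push_cast
        rw [pow_succ]
        field_simp
      rw [e2] at h2
      have e3 : η / w * (1 - 1 / 2 ^ n) + η / w * (1 / 2 ^ (n + 1)) = η / w * (1 - 1 / 2 ^ (n + 1)) := by
        rw [pow_succ]
        field_simp
        ring
      linarith
  have h1 := hind Y
  have h2 : PI w Y ⊆ PI w (2 ^ Y * w) := by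
    intro p hp
    rw [mem_PI] at hp ⊢
    refine ⟨⟨hp.1.1, ?_⟩, hp.2⟩
    have h3 : Y < 2 ^ Y := Nat.lt_two_pow_self
    have h4 : 2 ^ Y ≤ 2 ^ Y * w := Nat.le_mul_of_pos_right _ (by omega)
    omega
  calc ∑ p ∈ PI w Y, 1 / (p : ℝ) ^ 2 ≤ ∑ p ∈ PI w (2 ^ Y * w), 1 / (p : ℝ) ^ 2 :=
        sum_le_sum_of_subset_of_nonneg h2 fun p _ _ => by positivity
    _ ≤ η / w * (1 - 1 / 2 ^ Y) := h1
    _ ≤ η / w := by
      have h3 : 0 ≤ 1 / (2 : ℝ) ^ Y := by positivity
      have h4 : 0 ≤ η / w := by positivity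
      nlinarith

theorem V_ge_log : ∀ᶠ n : ℕ in atTop, 1 / (2 * Real.log n) ≤ V n := by
  have hg : (1 : ℝ) / 2 < Real.exp (-Real.eulerMascheroniConstant) := by
    rw [Real.exp_neg, one_div, inv_lt_inv₀ (by norm_num) (Real.exp_pos _)]
    have := expg
    linarith
  filter_upwards [mertens.eventually_const_lt hg, eventually_ge_atTop 2] with n hn h2
  have hl : 0 < Real.log n := Real.log_pos (by exact_mod_cast h2)
  rw [div_le_iff₀ (by positivity)]
  linarith

/-- the ratio of `V` at `k ^ 20` and at `w`, `k ^ (1/2) ≤ w` -/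
theorem rho_lower : ∃ u0 : ℕ, 2 ≤ u0 ∧ ∀ w k : ℕ, u0 ≤ w → w ≤ k → k ≤ w ^ 2 →
    1 / 80 * V w ≤ V (k ^ 20) := by
  obtain ⟨u0, hu0, hu⟩ := V_mul_le
  refine ⟨u0, hu0, fun w k hw hwk hkw => ?_⟩
  have hw2 : (2 : ℝ) ≤ w := by exact_mod_cast hu0.trans hw
  have hwk' : w ≤ k ^ 20 := hwk.trans (Nat.le_self_pow (by norm_num) k)
  have h1 := hu w (k ^ 20) hw hwk'
  have hk0 : (0 : ℝ) < k := by
    have : (w : ℝ) ≤ k := by exact_mod_cast hwk
    linarith
  have hlw : 0 < Real.log w := Real.log_pos (by linarith)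
  have h2 : Real.log ((k ^ 20 : ℕ) : ℝ) ≤ 40 * Real.log w := by
    push_cast
    rw [Real.log_pow]
    have h3 : Real.log k ≤ Real.log ((w : ℝ) ^ 2) := Real.log_le_log hk0 (by exact_mod_cast hkw)
    rw [Real.log_pow] at h3
    push_cast at h3 ⊢
    linarith
  have hV := V_pos (k ^ 20)
  have h3 : Real.log w * V w ≤ Real.log w * (80 * V (k ^ 20)) := by
    calc Real.log w * V w ≤ 2 * (Real.log ((k ^ 20 : ℕ) : ℝ) * V (k ^ 20)) := h1
      _ ≤ 2 * (40 * Real.log w * V (k ^ 20)) := by gcongr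
      _ = Real.log w * (80 * V (k ^ 20)) := by ring
  have h4 := le_of_mul_le_mul_left h3 hlw
  linarith

end Pool.Agent.H531.CP
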