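import Pool.Agent.H531.CP.Sec
import Pool.Graph.R_seed8.Helper601.PNT

set_option autoImplicit false

/-!
# The scales and the sieving limits
-/

open Finset MeasureTheory ProbabilityTheory Filter Topology

namespace Pool.Agent.H531.CP

open Pool.Agent.T2H31.HV Pool.Agent.H531.SI Pool.Agent.H531.MS
open Pool.Agent.T2H32.BF hiding PI

/-- the scales -/
noncomputable def E (k : ℕ) : ℕ := ⌈Real.exp k⌉₊

theorem E_lower (k : ℕ) : Real.exp k ≤ E k := Nat.le_ceil _

theorem E_upper (k : ℕ) : (E k : ℝ) ≤ 2 * Real.exp k := by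
  have h0 : 1 ≤ Real.exp (k : ℝ) := Real.one_le_exp (Nat.cast_nonneg k)
  have h1 := (Nat.ceil_lt_add_one (Real.exp_pos (k : ℝ)).le).le
  unfold E
  linarith

theorem E_mono : Monotone E := by
  intro i j hij
  unfold E
  apply Nat.ceil_mono
  apply Real.exp_le_exp.2
  exact_mod_cast hij

theorem E_pos (k : ℕ) : 0 < E k := Nat.ceil_pos.2 (Real.exp_pos _)

theorem E_top : Tendsto E atTop atTop :=
  tendsto_nat_ceil_atTop.comp (Real.tendsto_exp_atTop.comp tendsto_natCast_atTop_atTop)

theorem log_E_lower (k : ℕ) : (k : ℝ) ≤ Real.log (E k) := by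
  have h2 := Real.log_le_log (Real.exp_pos _) (E_lower k)
  rwa [Real.log_exp] at h2

theorem log_E_upper (k : ℕ) : Real.log (E k) ≤ k + 1 := by
  have h0 : (0 : ℝ) < E k := by exact_mod_cast E_pos k
  have h1 := Real.log_le_log h0 (E_upper k)
  rw [Real.log_mul (by norm_num) (Real.exp_pos _).ne', Real.log_exp] at h1
  have := Real.log_two_lt_d9
  linarith

theorem log2_E (k : ℕ) (hk : 2 ≤ k) : Nat.log 2 (E k) ≤ 3 * k := by
  have h0 : E k ≠ 0 := (E_pos k).ne'
  have h1 : 2 ^ Nat.log 2 (E k) ≤ E k := Nat.pow_log_le_self 2 h0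
  have h2 : Real.log ((2 : ℝ) ^ Nat.log 2 (E k)) ≤ Real.log (E k) :=
    Real.log_le_log (by positivity) (by exact_mod_cast h1)
  rw [Real.log_pow] at h2
  have h3 := h2.trans (log_E_upper k)
  have h4 := Real.log_two_gt_d9
  have hk' : (2 : ℝ) ≤ k := by exact_mod_cast hk
  have h5 : ((Nat.log 2 (E k) : ℕ) : ℝ) * 0.69 ≤ k + 1 := by
    refine le_trans ?_ h3
    gcongr
    linarith
  have h6 : ((Nat.log 2 (E k) : ℕ) : ℝ) ≤ 3 * k := by nlinarith
  exact_mod_cast h6

/-- a sequence with the logarithmic size of `e ^ k` -/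
structure Scl (n : ℕ → ℕ) : Prop where
  lower : ∀ᶠ k : ℕ in atTop, (k : ℝ) - 4 ≤ Real.log (n k)
  upper : ∀ᶠ k : ℕ in atTop, Real.log (n k) ≤ k + 4

theorem Scl.top {n : ℕ → ℕ} (h : Scl n) : Tendsto n atTop atTop := by
  have h1 : Tendsto (fun k => Real.log (n k)) atTop atTop := by
    refine tendsto_atTop_mono' _ h.lower ?_
    exact tendsto_atTop_add_const_right _ _ tendsto_natCast_atTop_atTop
  have h2 : Tendsto (fun k => (n k : ℝ)) atTop atTop := by
    rw [tendsto_atTop]
    intro b
    filter_upwards [h1.eventually_ge_atTop (max b 1)] with k hk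
    have h3 : Real.log (n k) ≤ n k := by
      rcases Nat.eq_zero_or_pos (n k) with h0 | h0
      · rw [h0]
        simp
      · exact (Real.log_le_sub_one_of_pos (by exact_mod_cast h0)).trans (by linarith)
    exact (le_max_left _ _).trans (hk.trans h3)
  exact tendsto_natCast_atTop_iff.1 h2

theorem Scl_two : Scl fun k => 2 * E k := by
  have h2 := Real.log_two_lt_d9
  have h2' := Real.log_two_gt_d9
  constructor
  · filter_upwards with k
    have h0 : (E k : ℝ) ≠ 0 := by exact_mod_cast (E_pos k).ne'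
    push_cast
    rw [Real.log_mul (by norm_num) h0]
    have := log_E_lower k
    linarith
  · filter_upwards with k
    have h0 : (E k : ℝ) ≠ 0 := by exact_mod_cast (E_pos k).ne'
    push_cast
    rw [Real.log_mul (by norm_num) h0]
    have := log_E_upper k
    linarith

theorem Scl_eighth : Scl fun k => E k / 8 := by
  have h2 := Real.log_two_lt_d9
  have h2' := Real.log_two_gt_d9
  constructor
  · filter_upwards [E_top.eventually_ge_atTop 16] with k hk
    have h0 : (0 : ℝ) < E k := by exact_mod_cast E_pos k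
    have h1 : E k ≤ 16 * (E k / 8) := by omega
    have h3 : (E k : ℝ) / 16 ≤ ((E k / 8 : ℕ) : ℝ) := by
      rw [div_le_iff₀ (by norm_num)]
      have : (E k : ℝ) ≤ ((16 * (E k / 8) : ℕ) : ℝ) := by exact_mod_cast h1
      push_cast at this
      linarith
    have h4 := Real.log_le_log (by positivity) h3
    rw [Real.log_div h0.ne' (by norm_num)] at h4
    have h5 : Real.log 16 = 4 * Real.log 2 := by
      rw [show (16 : ℝ) = 2 ^ 4 by norm_num, Real.log_pow]
      norm_num
    rw [h5] at h4
    have := log_E_lower k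
    linarith
  · filter_upwards [E_top.eventually_ge_atTop 16] with k hk
    have h1 : E k / 8 ≤ E k := Nat.div_le_self _ _
    have h3 : 0 < E k / 8 := by omega
    have h4 : Real.log ((E k / 8 : ℕ) : ℝ) ≤ Real.log (E k) :=
      Real.log_le_log (by exact_mod_cast h3) (by exact_mod_cast h1)
    have := log_E_upper k
    linarith

section limits

variable (z : ℕ → ℕ) (hzV : Tendsto (fun n => V (z n) * Real.log n) atTop (𝓝 1))

include hzV

/-- the value of `V` at the sieving limit -/
theorem V_scl {n : ℕ → ℕ} (hn : Scl n) (ε : ℝ) (hε : 0 < ε) : ∀ᶠ k : ℕ in atTop,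
    (1 - ε) / k ≤ V (z (n k)) ∧ V (z (n k)) ≤ (1 + ε) / k := by
  have h1 : Tendsto (fun k => Real.log (n k) / k) atTop (𝓝 1) := by
    have h2 : Tendsto (fun k : ℕ => ((k : ℝ) - 4) / k) atTop (𝓝 1) := by
      have h3 : Tendsto (fun k : ℕ => 1 - 4 / (k : ℝ)) atTop (𝓝 (1 - 0)) :=
        tendsto_const_nhds.sub (tendsto_const_div_atTop_nhds_zero_nat 4)
      rw [sub_zero] at h3
      refine h3.congr' ?_
      filter_upwards [eventually_ge_atTop 1] with k hk
      have : (k : ℝ) ≠ 0 := by exact_mod_cast (by omega : k ≠ 0)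
      field_simp
    have h2' : Tendsto (fun k : ℕ => ((k : ℝ) + 4) / k) atTop (𝓝 1) := by
      have h3 : Tendsto (fun k : ℕ => 1 + 4 / (k : ℝ)) atTop (𝓝 (1 + 0)) :=
        tendsto_const_nhds.add (tendsto_const_div_atTop_nhds_zero_nat 4)
      rw [add_zero] at h3
      refine h3.congr' ?_
      filter_upwards [eventually_ge_atTop 1] with k hk
      have : (k : ℝ) ≠ 0 := by exact_mod_cast (by omega : k ≠ 0)
      field_simp
    refine tendsto_of_tendsto_of_tendsto_of_le_of_le' h2 h2' ?_ ?_
    · filter_upwards [hn.lower] with k hk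
      exact div_le_div_of_nonneg_right hk (Nat.cast_nonneg k)
    · filter_upwards [hn.upper] with k hk
      exact div_le_div_of_nonneg_right hk (Nat.cast_nonneg k)
  have h2 := hzV.comp hn.top
  have h3 : Tendsto (fun k : ℕ => V (z (n k)) * k) atTop (𝓝 1) := by
    have h4 := h2.div h1 (by norm_num)
    rw [div_one] at h4
    refine h4.congr' ?_
    filter_upwards [eventually_ge_atTop 6, hn.lower] with k hk hk2
    have hk6 : (6 : ℝ) ≤ k := by exact_mod_cast hk
    have h5 : Real.log (n k) ≠ 0 := by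
      have : 0 < Real.log (n k) := by linarith
      exact this.ne'
    have h6 : (k : ℝ) ≠ 0 := by linarith
    simp only [Function.comp, Pi.div_apply]
    field_simp
  filter_upwards [h3.eventually_const_lt (show 1 - ε < 1 by linarith), h3.eventually_lt_const (show 1 < 1 + ε by linarith),
    eventually_ge_atTop 1] with k h4 h5 h6
  have hk0 : (0 : ℝ) < k := by exact_mod_cast (by omega : 0 < k)
  constructor
  · rw [div_le_iff₀ hk0]
    exact h4.le
  · rw [le_div_iff₀ hk0]
    exact h5.le

theorem Y_le_z {n : ℕ → ℕ} (hn : Scl n) : ∀ᶠ k : ℕ in atTop, Yk k ≤ z (n k) := by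
  have hY : Tendsto Yk atTop atTop := by
    unfold Yk
    exact tendsto_pow_atTop (by norm_num)
  filter_upwards [V_scl z hzV hn 1 one_pos, hY.eventually V_ge_log, log_small (1 / 160) (by norm_num),
    eventually_ge_atTop 2] with k h1 h2 h3 h4
  by_contra hcon
  push Not at hcon
  have h5 : V (Yk k) ≤ V (z (n k)) := V_anti hcon.le
  have hk : (2 : ℝ) ≤ k := by exact_mod_cast h4
  have hl : 0 < Real.log k := Real.log_pos (by linarith)
  have hYl : Real.log (Yk k) = 20 * Real.log k := by
    unfold Yk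
    push_cast
    rw [Real.log_pow]
    norm_num
  rw [hYl] at h2
  have h6 : 1 / (2 * (20 * Real.log k)) ≤ (1 + 1) / (k : ℝ) := (h2.trans h5).trans h1.2
  rw [div_le_div_iff₀ (by positivity) (by linarith)] at h6
  linarith

theorem log_z_le {n : ℕ → ℕ} (hn : Scl n) (hzt : Tendsto z atTop atTop) :
    ∀ᶠ k : ℕ in atTop, Real.log (z (n k)) ≤ 2 * k := by
  have hg : Real.exp (-Real.eulerMascheroniConstant) < 1 := by
    rw [← Real.exp_zero]
    apply Real.exp_lt_exp.2
    have := Real.one_half_lt_eulerMascheroniConstant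
    linarith
  have h1 := (mertens.eventually_lt_const hg)
  have h2 := (hzt.comp hn.top).eventually h1
  filter_upwards [h2, V_scl z hzV hn (1 / 2) (by norm_num), eventually_ge_atTop 1] with k h3 h4 h5
  simp only [Function.comp] at h3
  have hk0 : (0 : ℝ) < k := by exact_mod_cast (by omega : 0 < k)
  have h6 := h4.1
  rw [div_le_iff₀ hk0] at h6
  have hV := V_pos (z (n k))
  by_contra hcon
  push Not at hcon
  have : V (z (n k)) * (2 * k) ≤ V (z (n k)) * Real.log (z (n k)) := mul_le_mul_of_nonneg_left hcon.le hV.le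
  linarith

end limits

/-- the primorial -/
theorem primorial_le (ε : ℝ) (hε : 0 < ε) : ∀ᶠ w : ℕ in atTop, (primorial w : ℝ) ≤ Real.exp ((1 + ε) * w) := by
  have h1 := Pool.Agent.Helper601.PNT.theta_div_tendsto.comp (tendsto_natCast_atTop_atTop (R := ℝ))
  filter_upwards [h1.eventually_lt_const (show 1 < 1 + ε by linarith), eventually_ge_atTop 1] with w h2 h3
  have hw0 : (0 : ℝ) < w := by exact_mod_cast (by omega : 0 < w)
  simp only [Function.comp] at h2
  rw [div_lt_iff₀ hw0, Chebyshev.theta_eq_log_primorial, Nat.floor_natCast] at h2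
  have h4 : (0 : ℝ) < primorial w := by exact_mod_cast primorial_pos w
  rw [← Real.exp_log h4]
  exact Real.exp_le_exp.2 h2.le

end Pool.Agent.H531.CP
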